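import Mathlib

/-!
# Project OB (MP_0f6f3f_an), layer S1: the number of small cells near a projective line
-/

set_option autoImplicit false
set_option linter.unusedSectionVars false

open Finset

namespace Pool.Agent.Helper84.OB

private theorem abs_le_of_sum {N : ℕ} {v : Fin N → ℝ} {K : ℝ} (hK : 0 ≤ K) (h : ∑ i, v i ^ 2 ≤ K ^ 2) (i : Fin N) :
    |v i| ≤ K := by
  have h1 : v i ^ 2 ≤ ∑ i, v i ^ 2 := Finset.single_le_sum (f := fun i => v i ^ 2) (fun i _ => sq_nonneg _) (mem_univ i)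
  exact abs_le_of_sq_le_sq (h1.trans h) hK

/-- The point of the circle: `ρ ^ 2 + |v - w|² = 1`. -/
theorem bessel {N : ℕ} {e f v : Fin N → ℝ} (he : ∑ i, e i ^ 2 = 1) (hf : ∑ i, f i ^ 2 = 1) (hef : ∑ i, e i * f i = 0)
    (hv : ∑ i, v i ^ 2 = 1) :
    (∑ i, v i * e i) ^ 2 + (∑ i, v i * f i) ^ 2 +
      ∑ i, (v i - (∑ j, v j * e j) * e i - (∑ j, v j * f j) * f i) ^ 2 = 1 := by
  obtain ⟨α, hα⟩ : ∃ α, α = ∑ i, v i * e i := ⟨_, rfl⟩
  obtain ⟨β, hβ⟩ : ∃ β, β = ∑ i, v i * f i := ⟨_, rfl⟩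
  rw [← hα, ← hβ]
  have h1 : ∀ i, (v i - α * e i - β * f i) ^ 2 =
      v i ^ 2 - 2 * α * (v i * e i) - 2 * β * (v i * f i) + α ^ 2 * e i ^ 2 + β ^ 2 * f i ^ 2 +
        2 * α * β * (e i * f i) := fun i => by ring
  rw [Finset.sum_congr rfl fun i _ => h1 i]
  rw [Finset.sum_add_distrib, Finset.sum_add_distrib, Finset.sum_add_distrib, Finset.sum_sub_distrib,
    Finset.sum_sub_distrib, ← Finset.mul_sum, ← Finset.mul_sum, ← Finset.mul_sum, ← Finset.mul_sum, ← Finset.mul_sum,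
    he, hf, hef, hv, ← hα, ← hβ]
  ring

/-- Two unit vectors near the line with nearby angles are near. -/
private theorem near {N : ℕ} {K r : ℝ} (hK : 0 ≤ K) (hr : 0 < r) {e f v v' : Fin N → ℝ} (he : ∑ i, e i ^ 2 = 1)
    (hf : ∑ i, f i ^ 2 = 1) (hef : ∑ i, e i * f i = 0) (hv : ∑ i, v i ^ 2 = 1) (hv' : ∑ i, v' i ^ 2 = 1)
    (h1 : ∑ i, (v i - (∑ j, v j * e j) * e i - (∑ j, v j * f j) * f i) ^ 2 ≤ (K * r) ^ 2)
    (h1' : ∑ i, (v' i - (∑ j, v' j * e j) * e i - (∑ j, v' j * f j) * f i) ^ 2 ≤ (K * r) ^ 2)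
    (h2 : |Complex.arg ⟨∑ i, v i * e i, ∑ i, v i * f i⟩ - Complex.arg ⟨∑ i, v' i * e i, ∑ i, v' i * f i⟩| ≤ r)
    (i : Fin N) : |v i - v' i| ≤ (4 * K + 2) * r := by
  have hKr : 0 ≤ K * r := mul_nonneg hK hr.le
  obtain ⟨z, hz⟩ : ∃ z : ℂ, z = ⟨∑ i, v i * e i, ∑ i, v i * f i⟩ := ⟨_, rfl⟩
  obtain ⟨z', hz'⟩ : ∃ z' : ℂ, z' = ⟨∑ i, v' i * e i, ∑ i, v' i * f i⟩ := ⟨_, rfl⟩
  have hre : ∑ i, v i * e i = z.re := by rw [hz]
  have him : ∑ i, v i * f i = z.im := by rw [hz]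
  have hre' : ∑ i, v' i * e i = z'.re := by rw [hz']
  have him' : ∑ i, v' i * f i = z'.im := by rw [hz']
  have b1 := bessel he hf hef hv
  have b1' := bessel he hf hef hv'
  rw [← hz, ← hz'] at h2
  rw [hre, him] at b1 h1
  rw [hre', him'] at b1' h1'
  -- norms
  have n1 : ‖z‖ ^ 2 = z.re ^ 2 + z.im ^ 2 := by
    rw [← Complex.normSq_eq_norm_sq, Complex.normSq_apply]
    ring
  have n1' : ‖z'‖ ^ 2 = z'.re ^ 2 + z'.im ^ 2 := by
    rw [← Complex.normSq_eq_norm_sq, Complex.normSq_apply]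
    ring
  have p1 : 0 ≤ ∑ i, (v i - z.re * e i - z.im * f i) ^ 2 := Finset.sum_nonneg fun _ _ => sq_nonneg _
  have p1' : 0 ≤ ∑ i, (v' i - z'.re * e i - z'.im * f i) ^ 2 := Finset.sum_nonneg fun _ _ => sq_nonneg _
  have u1 : ‖z‖ ≤ 1 := by nlinarith [norm_nonneg z]
  have u1' : ‖z'‖ ≤ 1 := by nlinarith [norm_nonneg z']
  have l1 : 1 - K * r ≤ ‖z‖ := by
    by_contra hh
    push Not at hh
    nlinarith [norm_nonneg z]
  have l1' : 1 - K * r ≤ ‖z'‖ := by
    by_contra hh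
    push Not at hh
    nlinarith [norm_nonneg z']
  -- the distance of `z`, `z'`
  have hd : ‖z - z'‖ ≤ (K + 1) * r := by
    have e1 : z - z' = ((‖z‖ - ‖z'‖ : ℝ) : ℂ) * Complex.exp (z.arg * Complex.I) +
        (‖z'‖ : ℂ) * (Complex.exp (z'.arg * Complex.I) *
          (Complex.exp (Complex.I * ((z.arg - z'.arg : ℝ) : ℂ)) - 1)) := by
      have e2 : Complex.exp (z'.arg * Complex.I) * Complex.exp (Complex.I * ((z.arg - z'.arg : ℝ) : ℂ)) =
          Complex.exp (z.arg * Complex.I) := by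
        rw [← Complex.exp_add]
        congr 1
        push_cast
        ring
      have e3 := Complex.norm_mul_exp_arg_mul_I z
      have e4 := Complex.norm_mul_exp_arg_mul_I z'
      rw [mul_sub, e2]
      conv_lhs => rw [← e3, ← e4]
      push_cast
      ring
    rw [e1]
    refine (norm_add_le _ _).trans ?_
    have f1 : ‖((‖z‖ - ‖z'‖ : ℝ) : ℂ) * Complex.exp (z.arg * Complex.I)‖ ≤ K * r := by
      rw [norm_mul, Complex.norm_exp_ofReal_mul_I, mul_one, Complex.norm_real, Real.norm_eq_abs, abs_le]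
      constructor <;> linarith
    have f2 : ‖(‖z'‖ : ℂ) * (Complex.exp (z'.arg * Complex.I) *
          (Complex.exp (Complex.I * ((z.arg - z'.arg : ℝ) : ℂ)) - 1))‖ ≤ r := by
      rw [norm_mul, norm_mul, Complex.norm_exp_ofReal_mul_I, one_mul, Complex.norm_real, norm_norm]
      have f3 : ‖Complex.exp (Complex.I * ((z.arg - z'.arg : ℝ) : ℂ)) - 1‖ ≤ ‖z.arg - z'.arg‖ :=
        Real.norm_exp_I_mul_ofReal_sub_one_le
      rw [Real.norm_eq_abs] at f3
      calc ‖z'‖ * ‖Complex.exp (Complex.I * ((z.arg - z'.arg : ℝ) : ℂ)) - 1‖ ≤ 1 * r :=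
            mul_le_mul u1' (f3.trans h2) (norm_nonneg _) zero_le_one
        _ = r := one_mul r
    linarith
  have hdr : |z.re - z'.re| ≤ (K + 1) * r := by
    rw [← Complex.sub_re]
    exact (Complex.abs_re_le_norm _).trans hd
  have hdi : |z.im - z'.im| ≤ (K + 1) * r := by
    rw [← Complex.sub_im]
    exact (Complex.abs_im_le_norm _).trans hd
  have a1 := abs_le_of_sum hKr h1 i
  have a1' := abs_le_of_sum hKr h1' i
  have ei : |e i| ≤ 1 := abs_le_of_sum zero_le_one (by rw [he]; norm_num) i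
  have fi : |f i| ≤ 1 := abs_le_of_sum zero_le_one (by rw [hf]; norm_num) i
  have e5 : v i - v' i = (v i - z.re * e i - z.im * f i) - (v' i - z'.re * e i - z'.im * f i) +
      ((z.re - z'.re) * e i + (z.im - z'.im) * f i) := by ring
  rw [e5]
  have g1 : |(z.re - z'.re) * e i| ≤ (K + 1) * r := by
    rw [abs_mul]
    calc |z.re - z'.re| * |e i| ≤ (K + 1) * r * 1 := mul_le_mul hdr ei (abs_nonneg _) (by positivity)
      _ = _ := mul_one _
  have g2 : |(z.im - z'.im) * f i| ≤ (K + 1) * r := by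
    rw [abs_mul]
    calc |z.im - z'.im| * |f i| ≤ (K + 1) * r * 1 := mul_le_mul hdi fi (abs_nonneg _) (by positivity)
      _ = _ := mul_one _
  refine (abs_add_le _ _).trans ?_
  have g3 := abs_sub (v i - z.re * e i - z.im * f i) (v' i - z'.re * e i - z'.im * f i)
  have g4 := abs_add_le ((z.re - z'.re) * e i) ((z.im - z'.im) * f i)
  nlinarith

/-- **The number of cells of size `r` near a projective line is at most `C / r`.** -/
theorem cells_count (N : ℕ) (K : ℝ) (hK : 0 ≤ K) : ∃ C : ℝ, 0 ≤ C ∧ ∀ r : ℝ, 0 < r → r ≤ 1 → ∀ e f : Fin N → ℝ,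
    ∑ i, e i ^ 2 = 1 → ∑ i, f i ^ 2 = 1 → ∑ i, e i * f i = 0 → ∀ s : Finset (Fin N → Fin N → ℤ),
    (∀ c ∈ s, ∃ v : Fin N → ℝ, ∑ i, v i ^ 2 = 1 ∧ (∀ i j, c i j = ⌊v i * v j / r⌋) ∧
      ∑ i, (v i - (∑ j, v j * e j) * e i - (∑ j, v j * f j) * f i) ^ 2 ≤ (K * r) ^ 2) → (s.card : ℝ) ≤ C / r := by
  classical
  obtain ⟨D, hD⟩ : ∃ D : ℕ, 8 * K + 5 ≤ D := exists_nat_ge _
  refine ⟨((2 * D + 1) ^ (N * N) : ℕ) * 9, by positivity, fun r hr hr1 e f he hf hef s hs => ?_⟩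
  choose! v hv hc hn using hs
  obtain ⟨d, hd⟩ : ∃ d : (Fin N → Fin N → ℤ) → ℤ, d = fun c =>
      ⌊Complex.arg ⟨∑ i, v c i * e i, ∑ i, v c i * f i⟩ / r⌋ := ⟨_, rfl⟩
  have hfib : ∀ a ∈ s.image d, (s.filter fun c => d c = a).card ≤ (2 * D + 1) ^ (N * N) := by
    intro a ha
    obtain ⟨c0, hc0, rfl⟩ := Finset.mem_image.1 ha
    have hsub : (s.filter fun c => d c = d c0) ⊆
        Fintype.piFinset fun i => Fintype.piFinset fun j => Finset.Icc (c0 i j - D) (c0 i j + D) := by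
      intro c hcs
      rw [Finset.mem_filter] at hcs
      obtain ⟨hcs, hdc⟩ := hcs
      have hang : |Complex.arg ⟨∑ i, v c i * e i, ∑ i, v c i * f i⟩ -
          Complex.arg ⟨∑ i, v c0 i * e i, ∑ i, v c0 i * f i⟩| ≤ r := by
        rw [hd] at hdc
        have h3 := Int.abs_sub_lt_one_of_floor_eq_floor hdc
        rw [← sub_div, abs_div, abs_of_pos hr, div_lt_one hr] at h3
        exact h3.le
      have hnear := near hK hr he hf hef (hv c hcs) (hv c0 hc0) (hn c hcs) (hn c0 hc0) hang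
      rw [Fintype.mem_piFinset]
      intro i
      rw [Fintype.mem_piFinset]
      intro j
      have b1 : |v c j| ≤ 1 := abs_le_of_sum zero_le_one (by rw [hv c hcs]; norm_num) j
      have b2 : |v c0 i| ≤ 1 := abs_le_of_sum zero_le_one (by rw [hv c0 hc0]; norm_num) i
      have h5 : |v c i * v c j - v c0 i * v c0 j| ≤ (8 * K + 4) * r := by
        have e6 : v c i * v c j - v c0 i * v c0 j = (v c i - v c0 i) * v c j + v c0 i * (v c j - v c0 j) := by ring
        rw [e6]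
        refine (abs_add_le _ _).trans ?_
        rw [abs_mul, abs_mul]
        have g1 : |v c i - v c0 i| * |v c j| ≤ (4 * K + 2) * r * 1 :=
          mul_le_mul (hnear i) b1 (abs_nonneg _) (by positivity)
        have g2 : |v c0 i| * |v c j - v c0 j| ≤ 1 * ((4 * K + 2) * r) :=
          mul_le_mul b2 (hnear j) (abs_nonneg _) zero_le_one
        linarith
      have h6 : |v c i * v c j / r - v c0 i * v c0 j / r| ≤ 8 * K + 4 := by
        rw [← sub_div, abs_div, abs_of_pos hr, div_le_iff₀ hr]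
        exact h5
      rw [abs_le] at h6
      rw [hc c hcs i j, hc c0 hc0 i j, Finset.mem_Icc]
      have k1 := Int.floor_le (v c i * v c j / r)
      have k2 := Int.lt_floor_add_one (v c i * v c j / r)
      have k3 := Int.floor_le (v c0 i * v c0 j / r)
      have k4 := Int.lt_floor_add_one (v c0 i * v c0 j / r)
      constructor
      · have : ((⌊v c0 i * v c0 j / r⌋ - D : ℤ) : ℝ) < ((⌊v c i * v c j / r⌋ : ℤ) : ℝ) + 1 := by
          push_cast
          linarith [h6.1]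
        have h7 : (⌊v c0 i * v c0 j / r⌋ - D : ℤ) < ⌊v c i * v c j / r⌋ + 1 := by exact_mod_cast this
        omega
      · have : ((⌊v c i * v c j / r⌋ : ℤ) : ℝ) < ((⌊v c0 i * v c0 j / r⌋ + D : ℤ) : ℝ) + 1 := by
          push_cast
          linarith [h6.2]
        have h7 : (⌊v c i * v c j / r⌋ : ℤ) < ⌊v c0 i * v c0 j / r⌋ + D + 1 := by exact_mod_cast this
        omega
    refine (Finset.card_le_card hsub).trans (le_of_eq ?_)
    rw [Fintype.card_piFinset]
    have h8 : ∀ i : Fin N, (Fintype.piFinset fun j => Finset.Icc (c0 i j - D) (c0 i j + D)).card =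
        (2 * D + 1) ^ N := by
      intro i
      rw [Fintype.card_piFinset]
      have h9 : ∀ j : Fin N, (Finset.Icc (c0 i j - D) (c0 i j + D)).card = 2 * D + 1 := by
        intro j
        rw [Int.card_Icc]
        omega
      rw [Finset.prod_congr rfl fun j _ => h9 j]
      simp
    rw [Finset.prod_congr rfl fun i _ => h8 i]
    simp [pow_mul]
  have h1 := Finset.card_le_mul_card_image s ((2 * D + 1) ^ (N * N)) hfib
  have h2 : ((s.image d).card : ℝ) ≤ 9 / r := by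
    have hsub : s.image d ⊆ Finset.Icc ⌊-Real.pi / r⌋ ⌊Real.pi / r⌋ := by
      intro a ha
      obtain ⟨c0, hc0, rfl⟩ := Finset.mem_image.1 ha
      rw [hd, Finset.mem_Icc]
      constructor
      · refine Int.floor_le_floor ?_
        exact div_le_div_of_nonneg_right (Complex.neg_pi_lt_arg _).le hr.le
      · refine Int.floor_le_floor ?_
        exact div_le_div_of_nonneg_right (Complex.arg_le_pi _) hr.le
    have h3 : ((s.image d).card : ℝ) ≤ ((⌊Real.pi / r⌋ + 1 - ⌊-Real.pi / r⌋).toNat : ℕ) := by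
      have := Finset.card_le_card hsub
      rw [Int.card_Icc] at this
      exact_mod_cast this
    refine h3.trans ?_
    have k1 := Int.floor_le (Real.pi / r)
    have k2 := Int.lt_floor_add_one (-Real.pi / r)
    have k3 : ⌊-Real.pi / r⌋ ≤ ⌊Real.pi / r⌋ :=
      Int.floor_le_floor (div_le_div_of_nonneg_right (by linarith [Real.pi_pos]) hr.le)
    have k4 : (((⌊Real.pi / r⌋ + 1 - ⌊-Real.pi / r⌋).toNat : ℕ) : ℝ) =
        (⌊Real.pi / r⌋ : ℝ) + 1 - (⌊-Real.pi / r⌋ : ℝ) := by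
      have k5 : ((⌊Real.pi / r⌋ + 1 - ⌊-Real.pi / r⌋).toNat : ℤ) = ⌊Real.pi / r⌋ + 1 - ⌊-Real.pi / r⌋ :=
        Int.toNat_of_nonneg (by omega)
      have k6 : ((((⌊Real.pi / r⌋ + 1 - ⌊-Real.pi / r⌋).toNat : ℕ) : ℤ) : ℝ) =
          ((⌊Real.pi / r⌋ + 1 - ⌊-Real.pi / r⌋ : ℤ) : ℝ) := by rw [k5]
      push_cast at k6
      exact k6
    rw [k4]
    have k7 : (9 : ℝ) / r = 7 / r + 2 / r := by ring
    have k8 : 2 ≤ 2 / r := by
      rw [le_div_iff₀ hr]
      linarith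
    have k9 : 2 * Real.pi / r ≤ 7 / r := div_le_div_of_nonneg_right (by linarith [Real.pi_lt_d2]) hr.le
    have k10 : -Real.pi / r = -(Real.pi / r) := by ring
    have k11 : 2 * Real.pi / r = 2 * (Real.pi / r) := by ring
    rw [k10] at k2 ⊢
    rw [k11] at k9
    linarith
  calc (s.card : ℝ) ≤ (((2 * D + 1) ^ (N * N) * (s.image d).card : ℕ) : ℝ) := by exact_mod_cast h1
    _ = ((2 * D + 1) ^ (N * N) : ℕ) * ((s.image d).card : ℝ) := by push_cast; ring
    _ ≤ ((2 * D + 1) ^ (N * N) : ℕ) * (9 / r) := mul_le_mul_of_nonneg_left h2 (by positivity)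
    _ = ((2 * D + 1) ^ (N * N) : ℕ) * 9 / r := by ring

end Pool.Agent.Helper84.OB
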