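import Pool.Agent.Helper84.OB.Op
import Pool.Agent.Helper84.OB.Count

/-!
# Project OB (MP_0f6f3f_an), layer S1: the estimate
-/

set_option autoImplicit false
set_option linter.unusedSectionVars false

open MeasureTheory Filter Topology

namespace Pool.Agent.Helper84.OB

open Pool.Agent.Helper84 Pool.Agent.Helper84.GN Pool.Agent.Helper84.GN.S3 Pool.Agent.Helper84.GN.S3.X
open Pool.Agent.Helper84.NI Pool.Agent.Helper84.GVN Pool.Agent.Helper90.RK Pool.Agent.Helper78.BM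
open Pool.Agent.Helper96.RK Pool.Agent.Helper66.FR Pool.Agent.Helper84.FR Pool.Agent.Helper55.FR

section Real

variable {N : ℕ}

/-- The coefficients of the projection on the complement of the span of `e`, `f`. -/
def qq (e f : Fin N → ℝ) (j k : Fin N) : ℝ := (if j = k then 1 else 0) - e j * e k - f j * f k

/-- The square of the distance of `v` to the span of `e`, `f`. -/
def dd (v e f : Fin N → ℝ) : ℝ := ∑ i, (v i - (∑ j, v j * e j) * e i - (∑ j, v j * f j) * f i) ^ 2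

theorem sum_mul_qq (v e f : Fin N → ℝ) (k : Fin N) :
    ∑ j, v j * qq e f j k = v k - (∑ j, v j * e j) * e k - (∑ j, v j * f j) * f k := by
  unfold qq
  have h1 : ∀ j, v j * ((if j = k then 1 else 0) - e j * e k - f j * f k) =
      (if j = k then v j else 0) - v j * e j * e k - v j * f j * f k := fun j => by
    split_ifs <;> ring
  rw [Finset.sum_congr rfl fun j _ => h1 j, Finset.sum_sub_distrib, Finset.sum_sub_distrib, Finset.sum_mul,
    Finset.sum_mul, Finset.sum_ite_eq' Finset.univ k v]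
  simp

theorem abs_le_one_of {v : Fin N → ℝ} (h : ∑ i, v i ^ 2 = 1) (i : Fin N) : |v i| ≤ 1 := by
  have h1 : v i ^ 2 ≤ ∑ i, v i ^ 2 :=
    Finset.single_le_sum (f := fun i => v i ^ 2) (fun i _ => sq_nonneg _) (Finset.mem_univ i)
  rw [h] at h1
  exact abs_le_one_iff_mul_self_le_one.2 (by nlinarith)

theorem abs_mul_le_one {v : Fin N → ℝ} (h : ∑ i, v i ^ 2 = 1) (i j : Fin N) : |v i * v j| ≤ 1 := by
  rw [abs_mul]
  exact mul_le_one₀ (abs_le_one_of h i) (abs_nonneg _) (abs_le_one_of h j)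

theorem abs_qq_le {e f : Fin N → ℝ} (he : ∑ i, e i ^ 2 = 1) (hf : ∑ i, f i ^ 2 = 1) (j k : Fin N) :
    |qq e f j k| ≤ 3 := by
  have h1 := abs_le.1 (abs_mul_le_one he j k)
  have h2 := abs_le.1 (abs_mul_le_one hf j k)
  unfold qq
  rw [abs_le]
  split_ifs <;> constructor <;> linarith [h1.1, h1.2, h2.1, h2.2]

/-- The distance to the line in a small cell. -/
theorem dd_cell {r : ℝ} {u v e f : Fin N → ℝ} (hu : ∑ i, u i ^ 2 = 1) (hv : ∑ i, v i ^ 2 = 1)
    (he : ∑ i, e i ^ 2 = 1) (hf : ∑ i, f i ^ 2 = 1) (h : ∀ i j, |u i * u j - v i * v j| ≤ r) :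
    dd u e f ≤ 2 * dd v e f + 18 * N ^ 4 * r ^ 2 := by
  have hdd : ∀ w : Fin N → ℝ, ∑ i, w i ^ 2 = 1 →
      dd w e f = ∑ a, ∑ i, (∑ j, w a * w j * qq e f j i) ^ 2 := by
    intro w hw
    have h1 : ∀ a i, (∑ j, w a * w j * qq e f j i) ^ 2 =
        w a ^ 2 * (w i - (∑ j, w j * e j) * e i - (∑ j, w j * f j) * f i) ^ 2 := by
      intro a i
      rw [← sum_mul_qq, ← mul_pow, Finset.mul_sum]
      refine congrArg (· ^ 2) (Finset.sum_congr rfl fun j _ => by ring)
    rw [Finset.sum_congr rfl fun a _ => Finset.sum_congr rfl fun i _ => h1 a i]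
    rw [Finset.sum_congr rfl fun a _ => (Finset.mul_sum _ _ _).symm, ← Finset.sum_mul, hw, one_mul]
    rfl
  rw [hdd u hu, hdd v hv]
  have h2 : ∀ a i, (∑ j, u a * u j * qq e f j i) ^ 2 ≤
      2 * (∑ j, v a * v j * qq e f j i) ^ 2 + 18 * N ^ 2 * r ^ 2 := by
    intro a i
    have h3 : ∑ j, u a * u j * qq e f j i =
        ∑ j, v a * v j * qq e f j i + ∑ j, (u a * u j - v a * v j) * qq e f j i := by
      rw [← Finset.sum_add_distrib]
      exact Finset.sum_congr rfl fun j _ => by ring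
    have h4 : |∑ j, (u a * u j - v a * v j) * qq e f j i| ≤ 3 * N * r := by
      refine (Finset.abs_sum_le_sum_abs _ _).trans ?_
      refine (Finset.sum_le_sum (g := fun _ => r * 3) fun j _ => ?_).trans (le_of_eq ?_)
      · rw [abs_mul]
        exact mul_le_mul (h a j) (abs_qq_le he hf j i) (abs_nonneg _) ((abs_nonneg _).trans (h a j))
      · rw [Finset.sum_const, Finset.card_univ, Fintype.card_fin, nsmul_eq_mul]
        ring
    have h5 : (∑ j, (u a * u j - v a * v j) * qq e f j i) ^ 2 ≤ (3 * N * r) ^ 2 := by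
      rw [← sq_abs]
      exact pow_le_pow_left₀ (abs_nonneg _) h4 2
    rw [h3]
    nlinarith [sq_nonneg (∑ j, v a * v j * qq e f j i - ∑ j, (u a * u j - v a * v j) * qq e f j i)]
  refine (Finset.sum_le_sum fun a _ => Finset.sum_le_sum fun i _ => h2 a i).trans (le_of_eq ?_)
  simp only [Finset.sum_add_distrib, Finset.sum_const, Finset.card_univ, Fintype.card_fin, nsmul_eq_mul,
    ← Finset.mul_sum]
  ring

end Real

variable {X G : Type} [MeasurableSpace X] [Group G] {μ : Measure X} {R R' : Reg G} {N : ℕ}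

/-- The indicator function. -/
noncomputable def on (A : Set G) : G → ℂ := A.indicator fun _ => (1 : ℂ)

theorem norm_on_le (A : Set G) (γ : G) : ‖on A γ‖ ≤ 1 := by
  unfold on Set.indicator
  split_ifs <;> simp

theorem norm_on_mul_le (A : Set G) {f : G → ℂ} {C : ℝ} (hC : ∀ γ, ‖f γ‖ ≤ C) (γ : G) : ‖on A γ * f γ‖ ≤ C := by
  rw [norm_mul]
  calc ‖on A γ‖ * ‖f γ‖ ≤ 1 * C := mul_le_mul (norm_on_le A γ) (hC γ) (norm_nonneg _) zero_le_one
    _ = C := one_mul C

theorem on_mem {A : Set G} {γ : G} (h : γ ∈ A) : on A γ = 1 := Set.indicator_of_mem h _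

theorem on_not {A : Set G} {γ : G} (h : γ ∉ A) : on A γ = 0 := Set.indicator_of_notMem h _

/-- Locality: cut the second factor. -/
theorem cut {Z : XUa μ R' →L[ℂ] XUa μ R} {A B : Set G} (h : ∀ x, iUX R A (Z (iUX R' Bᶜ x)) = 0) {f g : G → ℂ} {C D : ℝ}
    (hC : ∀ γ, ‖f γ‖ ≤ C) (hD : ∀ γ, ‖g γ‖ ≤ D) (x : XUa μ R') :
    Mf μ R (fun γ => on A γ * f γ) (Z (Mf μ R' g x)) =
      Mf μ R (fun γ => on A γ * f γ) (Z (Mf μ R' (fun γ => on B γ * g γ) x)) := by
  have h1 : Mf μ R' g x = Mf μ R' (fun γ => on B γ * g γ) x + Mf μ R' (fun γ => on Bᶜ γ * g γ) x := by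
    rw [← Mf_add (norm_on_mul_le B hD) (norm_on_mul_le Bᶜ hD)]
    congr 2
    funext γ
    by_cases hγ : γ ∈ B
    · rw [on_mem hγ, on_not (A := Bᶜ) (by simpa using hγ)]
      ring
    · rw [on_not hγ, on_mem (A := Bᶜ) hγ]
      ring
  have h2 : Mf μ R (fun γ => on A γ * f γ) (Z (Mf μ R' (fun γ => on Bᶜ γ * g γ) x)) = 0 := by
    have e1 : (fun γ => on A γ * f γ) = fun γ => f γ * on A γ := by
      funext γ
      ring
    rw [e1, ← Mf_mul hC (norm_on_le A), ← Mf_mul (norm_on_le Bᶜ) hD]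
    have h3 := h (Mf μ R' g x)
    rw [Mf_ind, Mf_ind] at h3
    change Mf μ R (on A) (Z (Mf μ R' (on Bᶜ) (Mf μ R' g x))) = 0 at h3
    rw [h3, map_zero]
  rw [h1, map_add, map_add, h2, add_zero]

/-- **(S1)**, for real coordinates. -/
theorem s1_abs (v e f : G → Fin N → ℝ) (hv : ∀ γ, ∑ i, v γ i ^ 2 = 1) (he : ∀ γ, ∑ i, e γ i ^ 2 = 1)
    (hf : ∀ γ, ∑ i, f γ i ^ 2 = 1) (hef : ∀ γ, ∑ i, e γ i * f γ i = 0) (Z : XUa μ R' →L[ℂ] XUa μ R)
    (hloc : ∀ (A B : Set G) (δ : ℝ), 0 < δ → (∀ γ ∈ A, ∀ γ' ∈ B, δ ≤ dd (v γ) (e γ') (f γ')) →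
      ∀ x, iUX R A (Z (iUX R' B x)) = 0) (i k : Fin N) (x : XUa μ R') :
    ∑ j, Mf μ R (fun γ => ((v γ i * v γ j : ℝ) : ℂ)) (Z (Mf μ R' (fun γ => ((qq (e γ) (f γ) j k : ℝ) : ℂ)) x)) = 0 := by
  classical
  obtain ⟨K, hK0, hK⟩ : ∃ K : ℝ, 0 ≤ K ∧ K ^ 2 = 18 * N ^ 4 + 2 :=
    ⟨Real.sqrt (18 * N ^ 4 + 2), Real.sqrt_nonneg _, Real.sq_sqrt (by positivity)⟩
  obtain ⟨C, hC0, hC⟩ := cells_count N K hK0
  obtain ⟨y, hy⟩ : ∃ y, y = ∑ j, Mf μ R (fun γ => ((v γ i * v γ j : ℝ) : ℂ))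
    (Z (Mf μ R' (fun γ => ((qq (e γ) (f γ) j k : ℝ) : ℂ)) x)) := ⟨_, rfl⟩
  rw [← hy]
  -- the bounded functions
  have hp : ∀ j γ, ‖((v γ i * v γ j : ℝ) : ℂ)‖ ≤ 1 := fun j γ => by
    rw [Complex.norm_real, Real.norm_eq_abs]
    exact abs_mul_le_one (hv γ) i j
  have hq : ∀ j γ, ‖((qq (e γ) (f γ) j k : ℝ) : ℂ)‖ ≤ 3 := fun j γ => by
    rw [Complex.norm_real, Real.norm_eq_abs]
    exact abs_qq_le (he γ) (hf γ) j k
  have key : ∀ r : ℝ, 0 < r → r ≤ 1 →
      ‖y‖ ≤ (K * Real.sqrt C + N * (3 * Real.sqrt C)) * ‖Z‖ * ‖x‖ * Real.sqrt r := by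
    intro r hr hr1
    -- cells
    obtain ⟨κ, hκ⟩ : ∃ κ : G → Fin N → Fin N → ℤ, κ = fun γ a b => ⌊v γ a * v γ b / r⌋ := ⟨_, rfl⟩
    have hfin : (Set.range κ).Finite := by
      refine ((Fintype.piFinset fun _ : Fin N => Fintype.piFinset fun _ : Fin N =>
        Finset.Icc ⌊-1 / r⌋ ⌊1 / r⌋).finite_toSet).subset ?_
      rintro _ ⟨γ, rfl⟩
      rw [Finset.mem_coe, Fintype.mem_piFinset]
      intro a
      rw [Fintype.mem_piFinset]
      intro b
      have h1 := abs_le.1 (abs_mul_le_one (hv γ) a b)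
      rw [hκ, Finset.mem_Icc]
      exact ⟨Int.floor_le_floor (div_le_div_of_nonneg_right h1.1 hr.le),
        Int.floor_le_floor (div_le_div_of_nonneg_right h1.2 hr.le)⟩
    obtain ⟨T, hT⟩ : ∃ T : Finset (Fin N → Fin N → ℤ), T = hfin.toFinset := ⟨_, rfl⟩
    have hTm : ∀ γ, κ γ ∈ T := fun γ => by
      rw [hT, Set.Finite.mem_toFinset]
      exact Set.mem_range_self γ
    obtain ⟨rep, hrep⟩ : ∃ rep : (Fin N → Fin N → ℤ) → G, ∀ c ∈ T, κ (rep c) = c := by
      have : ∀ c : Fin N → Fin N → ℤ, ∃ γ : G, c ∈ T → κ γ = c := by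
        intro c
        by_cases hc : c ∈ T
        · rw [hT, Set.Finite.mem_toFinset] at hc
          obtain ⟨γ, hγ⟩ := hc
          exact ⟨γ, fun _ => hγ⟩
        · exact ⟨1, fun h => absurd h hc⟩
      choose rep h using this
      exact ⟨rep, h⟩
    obtain ⟨A, hA⟩ : ∃ A : (Fin N → Fin N → ℤ) → Set G, A = fun c => {γ | κ γ = c} := ⟨_, rfl⟩
    obtain ⟨B, hB⟩ : ∃ B : (Fin N → Fin N → ℤ) → Set G,
      B = fun c => {γ' | dd (v (rep c)) (e γ') (f γ') ≤ (K * r) ^ 2} := ⟨_, rfl⟩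
    have hmA : ∀ c γ, γ ∈ A c ↔ κ γ = c := fun c γ => by rw [hA]; rfl
    have hmB : ∀ c γ, γ ∈ B c ↔ dd (v (rep c)) (e γ) (f γ) ≤ (K * r) ^ 2 := fun c γ => by rw [hB]; rfl
    -- small oscillation
    have hosc : ∀ c ∈ T, ∀ γ ∈ A c, ∀ a b, |v (rep c) a * v (rep c) b - v γ a * v γ b| ≤ r := by
      intro c hc γ hγ a b
      have h1 : κ (rep c) = κ γ := by rw [hrep c hc, (hmA c γ).1 hγ]
      have h2 := congrFun (congrFun h1 a) b
      rw [hκ] at h2
      have h3 := Int.abs_sub_lt_one_of_floor_eq_floor h2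
      rw [← sub_div, abs_div, abs_of_pos hr, div_lt_one hr] at h3
      exact h3.le
    -- locality
    have hcut : ∀ c ∈ T, ∀ x, iUX R (A c) (Z (iUX R' (B c)ᶜ x)) = 0 := by
      intro c hc
      refine hloc _ _ (r ^ 2) (by positivity) fun γ hγ γ' hγ' => ?_
      have h1 := dd_cell (r := r) (hv (rep c)) (hv γ) (he γ') (hf γ') (hosc c hc γ hγ)
      rw [Set.mem_compl_iff, hmB, not_le, mul_pow, hK] at hγ'
      linarith
    -- the number of cells
    have hnum : ∀ γ, ((T.filter fun c => γ ∈ B c).card : ℝ) ≤ C / r := by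
      intro γ
      refine hC r hr hr1 (e γ) (f γ) (he γ) (hf γ) (hef γ) _ fun c hc => ?_
      rw [Finset.mem_filter] at hc
      refine ⟨v (rep c), hv _, fun a b => ?_, (hmB c γ).1 hc.2⟩
      conv_lhs => rw [← hrep c hc.1]
      rw [hκ]
    have hsumB : ∀ γ, ∑ c ∈ T, ‖on (B c) γ‖ ^ 2 ≤ C / r := by
      intro γ
      refine le_trans (le_of_eq ?_) (hnum γ)
      rw [Finset.card_filter, Nat.cast_sum]
      refine Finset.sum_congr rfl fun c _ => ?_
      by_cases h : γ ∈ B c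
      · rw [on_mem h, if_pos h]
        simp
      · rw [on_not h, if_neg h]
        simp
    have hsumA : ∀ γ, ∑ c ∈ T, on (A c) γ = 1 := by
      intro γ
      rw [Finset.sum_eq_single (κ γ)]
      · exact on_mem ((hmA _ _).2 rfl)
      · intro c _ hc
        exact on_not fun h => hc ((hmA _ _).1 h).symm
      · intro h
        exact absurd (hTm γ) h
    have hsumA2 : ∀ γ, ∑ c ∈ T, ‖on (A c) γ‖ ^ 2 = 1 := by
      intro γ
      rw [Finset.sum_eq_single (κ γ)]
      · rw [on_mem ((hmA _ _).2 rfl)]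
        simp
      · intro c _ hc
        rw [on_not fun h => hc ((hmA _ _).1 h).symm]
        simp
      · intro h
        exact absurd (hTm γ) h
    -- the two parts
    obtain ⟨h0, hh0⟩ : ∃ h0 : (Fin N → Fin N → ℤ) → G → ℂ, h0 = fun c γ =>
      on (B c) γ * ((∑ j, v (rep c) i * v (rep c) j * qq (e γ) (f γ) j k : ℝ) : ℂ) := ⟨_, rfl⟩
    obtain ⟨g1, hg1⟩ : ∃ g1 : Fin N → (Fin N → Fin N → ℤ) → G → ℂ, g1 = fun j c γ =>
      if c ∈ T then on (A c) γ * ((v γ i * v γ j - v (rep c) i * v (rep c) j : ℝ) : ℂ) else 0 := ⟨_, rfl⟩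
    have hdec : y = ∑ c ∈ T, Mf μ R (on (A c)) (Z (Mf μ R' (h0 c) x)) +
        ∑ j, ∑ c ∈ T, Mf μ R (g1 j c) (Z (Mf μ R' (fun γ => on (B c) γ * ((qq (e γ) (f γ) j k : ℝ) : ℂ)) x)) := by
      have e1 : ∀ j, Mf μ R (fun γ => ((v γ i * v γ j : ℝ) : ℂ))
          (Z (Mf μ R' (fun γ => ((qq (e γ) (f γ) j k : ℝ) : ℂ)) x)) =
          ∑ c ∈ T, (((v (rep c) i * v (rep c) j : ℝ) : ℂ) • Mf μ R (on (A c))
            (Z (Mf μ R' (fun γ => on (B c) γ * ((qq (e γ) (f γ) j k : ℝ) : ℂ)) x)) +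
            Mf μ R (g1 j c) (Z (Mf μ R' (fun γ => on (B c) γ * ((qq (e γ) (f γ) j k : ℝ) : ℂ)) x))) := by
        intro j
        have e2 : (fun γ => ((v γ i * v γ j : ℝ) : ℂ)) =
            fun γ => ∑ c ∈ T, on (A c) γ * ((v γ i * v γ j : ℝ) : ℂ) := by
          funext γ
          rw [← Finset.sum_mul, hsumA, one_mul]
        rw [e2, Mf_sum T (fun c γ => on (A c) γ * ((v γ i * v γ j : ℝ) : ℂ)) (C := 1)
          fun c γ => norm_on_mul_le (A c) (hp j) γ]
        refine Finset.sum_congr rfl fun c hc => ?_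
        rw [cut (hcut c hc) (hp j) (hq j)]
        have e3 : (fun γ => on (A c) γ * ((v γ i * v γ j : ℝ) : ℂ)) =
            fun γ => ((v (rep c) i * v (rep c) j : ℝ) : ℂ) * on (A c) γ + g1 j c γ := by
          funext γ
          rw [hg1]
          change _ = _ + if c ∈ T then _ else _
          rw [if_pos hc]
          push_cast
          ring
        rw [e3, Mf_add (C := 1 * 1) (D := 2) (fun γ => ?_) fun γ => ?_, Mf_smul (norm_on_le _)]
        · rw [norm_mul]
          refine mul_le_mul ?_ (norm_on_le _ _) (norm_nonneg _) zero_le_one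
          rw [Complex.norm_real, Real.norm_eq_abs]
          exact abs_mul_le_one (hv _) i j
        · rw [hg1]
          change ‖if c ∈ T then _ else _‖ ≤ _
          rw [if_pos hc]
          refine norm_on_mul_le (A c) (f := fun γ => ((v γ i * v γ j - v (rep c) i * v (rep c) j : ℝ) : ℂ)) (fun γ => ?_) γ
          rw [Complex.norm_real, Real.norm_eq_abs]
          have h1 := abs_le.1 (abs_mul_le_one (hv γ) i j)
          have h2 := abs_le.1 (abs_mul_le_one (hv (rep c)) i j)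
          rw [abs_le]
          constructor <;> linarith [h1.1, h1.2, h2.1, h2.2]
      rw [hy, Finset.sum_congr rfl fun j _ => e1 j, Finset.sum_congr rfl fun j _ => Finset.sum_add_distrib,
        Finset.sum_add_distrib, Finset.sum_comm]
      congr 1
      refine Finset.sum_congr rfl fun c _ => ?_
      have e4 : h0 c = fun γ => ∑ j, ((v (rep c) i * v (rep c) j : ℝ) : ℂ) *
          (on (B c) γ * ((qq (e γ) (f γ) j k : ℝ) : ℂ)) := by
        rw [hh0]
        funext γ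
        push_cast
        rw [Finset.mul_sum]
        exact Finset.sum_congr rfl fun j _ => by ring
      have e5 : ∀ j γ, ‖on (B c) γ * ((qq (e γ) (f γ) j k : ℝ) : ℂ)‖ ≤ 3 := fun j γ =>
        norm_on_mul_le (B c) (hq j) γ
      have e6 : ∀ j γ, ‖((v (rep c) i * v (rep c) j : ℝ) : ℂ) *
          (on (B c) γ * ((qq (e γ) (f γ) j k : ℝ) : ℂ))‖ ≤ 1 * 3 := fun j γ => by
        rw [norm_mul]
        refine mul_le_mul ?_ (e5 j γ) (norm_nonneg _) zero_le_one
        rw [Complex.norm_real, Real.norm_eq_abs]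
        exact abs_mul_le_one (hv _) i j
      rw [e4, Mf_sum Finset.univ _ e6, map_sum, map_sum]
      refine Finset.sum_congr rfl fun j _ => ?_
      rw [Mf_smul (e5 j), map_smul, map_smul]
    have est0 : ‖∑ c ∈ T, Mf μ R (on (A c)) (Z (Mf μ R' (h0 c) x))‖ ≤
        K * Real.sqrt C * ‖Z‖ * ‖x‖ * Real.sqrt r := by
      have f1 : ∀ c γ, ‖h0 c γ‖ ^ 2 ≤ ‖on (B c) γ‖ ^ 2 * (K * r) ^ 2 := by
        intro c γ
        rw [hh0]
        change ‖on (B c) γ * _‖ ^ 2 ≤ _
        rw [norm_mul, mul_pow]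
        by_cases hγ : γ ∈ B c
        · refine mul_le_mul_of_nonneg_left ?_ (sq_nonneg _)
          rw [Complex.norm_real, Real.norm_eq_abs, sq_abs]
          have f2 : ∑ j, v (rep c) i * v (rep c) j * qq (e γ) (f γ) j k =
              v (rep c) i * (v (rep c) k - (∑ j, v (rep c) j * e γ j) * e γ k - (∑ j, v (rep c) j * f γ j) * f γ k) := by
            rw [← sum_mul_qq, Finset.mul_sum]
            exact Finset.sum_congr rfl fun j _ => by ring
          have f3 : (v (rep c) k - (∑ j, v (rep c) j * e γ j) * e γ k - (∑ j, v (rep c) j * f γ j) * f γ k) ^ 2 ≤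
              dd (v (rep c)) (e γ) (f γ) :=
            Finset.single_le_sum (f := fun k => (v (rep c) k - (∑ j, v (rep c) j * e γ j) * e γ k -
              (∑ j, v (rep c) j * f γ j) * f γ k) ^ 2) (fun i _ => sq_nonneg _) (Finset.mem_univ k)
          have f4 : v (rep c) i ^ 2 ≤ 1 := by
            rw [← sq_abs]
            exact pow_le_one₀ (abs_nonneg _) (abs_le_one_of (hv _) i)
          rw [f2, mul_pow]
          have f5 := (hmB c γ).1 hγ
          calc _ ≤ 1 * dd (v (rep c)) (e γ) (f γ) := mul_le_mul f4 f3 (sq_nonneg _) zero_le_one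
            _ ≤ _ := by linarith
        · rw [on_not hγ]
          simp
      have f6 : ∀ c γ, ‖h0 c γ‖ ≤ 1 + K * r := by
        intro c γ
        have f7 := f1 c γ
        have f8 : ‖on (B c) γ‖ ^ 2 ≤ 1 := pow_le_one₀ (norm_nonneg _) (norm_on_le _ _)
        have f9 : ‖h0 c γ‖ ^ 2 ≤ (K * r) ^ 2 :=
          f7.trans ((mul_le_mul_of_nonneg_right f8 (sq_nonneg _)).trans (le_of_eq (one_mul _)))
        have f10 := abs_le_of_sq_le_sq f9 (mul_nonneg hK0 hr.le)
        rw [abs_of_nonneg (norm_nonneg _)] at f10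
        linarith
      have f11 := norm_sum_row_le T (fun c => on (A c)) h0 (C := 1 + K * r) (a := 1) (b := C / r * (K * r) ^ 2)
        (fun c γ => (norm_on_le _ _).trans (by nlinarith [mul_nonneg hK0 hr.le])) f6 (fun γ => (hsumA2 γ).le)
        (fun γ => (Finset.sum_le_sum fun c _ => f1 c γ).trans (by
          rw [← Finset.sum_mul]
          exact mul_le_mul_of_nonneg_right (hsumB γ) (sq_nonneg _))) Z x
      refine f11.trans (le_of_eq ?_)
      have f12 : C / r * (K * r) ^ 2 = K ^ 2 * (C * r) := by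
        field_simp
      rw [f12, Real.sqrt_one, Real.sqrt_mul (sq_nonneg K), Real.sqrt_sq hK0, Real.sqrt_mul hC0]
      ring
    have est1 : ∀ j, ‖∑ c ∈ T, Mf μ R (g1 j c) (Z (Mf μ R' (fun γ => on (B c) γ * ((qq (e γ) (f γ) j k : ℝ) : ℂ)) x))‖ ≤
        3 * Real.sqrt C * ‖Z‖ * ‖x‖ * Real.sqrt r := by
      intro j
      have f1 : ∀ c γ, ‖g1 j c γ‖ ^ 2 ≤ ‖on (A c) γ‖ ^ 2 * r ^ 2 := by
        intro c γ
        rw [hg1]
        change ‖if c ∈ T then _ else _‖ ^ 2 ≤ _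
        by_cases hc : c ∈ T
        · rw [if_pos hc, norm_mul, mul_pow]
          by_cases hγ : γ ∈ A c
          · refine mul_le_mul_of_nonneg_left ?_ (sq_nonneg _)
            rw [Complex.norm_real, Real.norm_eq_abs]
            have f2 := hosc c hc γ hγ i j
            rw [abs_sub_comm] at f2
            exact pow_le_pow_left₀ (abs_nonneg _) f2 2
          · rw [on_not hγ]
            simp
        · rw [if_neg hc, norm_zero, zero_pow two_ne_zero]
          positivity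
      have f6 : ∀ c γ, ‖g1 j c γ‖ ≤ 3 := by
        intro c γ
        have f8 : ‖on (A c) γ‖ ^ 2 ≤ 1 := pow_le_one₀ (norm_nonneg _) (norm_on_le _ _)
        have f9 : ‖g1 j c γ‖ ^ 2 ≤ r ^ 2 :=
          (f1 c γ).trans ((mul_le_mul_of_nonneg_right f8 (sq_nonneg _)).trans (le_of_eq (one_mul _)))
        have f10 := abs_le_of_sq_le_sq f9 hr.le
        rw [abs_of_nonneg (norm_nonneg _)] at f10
        linarith
      have f11 := norm_sum_row_le T (g1 j) (fun c γ => on (B c) γ * ((qq (e γ) (f γ) j k : ℝ) : ℂ)) (C := 3)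
        (a := r ^ 2) (b := C / r * 3 ^ 2) f6 (fun c γ => norm_on_mul_le (B c) (hq j) γ)
        (fun γ => (Finset.sum_le_sum fun c _ => f1 c γ).trans (by rw [← Finset.sum_mul, hsumA2, one_mul]))
        (fun γ => by
          refine le_trans (Finset.sum_le_sum (g := fun c => ‖on (B c) γ‖ ^ 2 * 3 ^ 2) fun c _ => ?_) ?_
          · rw [norm_mul, mul_pow]
            exact mul_le_mul_of_nonneg_left (pow_le_pow_left₀ (norm_nonneg _) (hq j γ) 2) (sq_nonneg _)
          · rw [← Finset.sum_mul]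
            exact mul_le_mul_of_nonneg_right (hsumB γ) (by norm_num)) Z x
      refine f11.trans (le_of_eq ?_)
      have f13 : r * Real.sqrt (C / r) = Real.sqrt C * Real.sqrt r := by
        rw [Real.sqrt_div hC0]
        have f14 : 0 < Real.sqrt r := Real.sqrt_pos.2 hr
        rw [← mul_div_assoc, div_eq_iff f14.ne', mul_assoc, Real.mul_self_sqrt hr.le]
        ring
      rw [Real.sqrt_sq hr.le, Real.sqrt_mul (div_nonneg hC0 hr.le), Real.sqrt_sq (by norm_num : (0 : ℝ) ≤ 3)]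
      calc r * ‖Z‖ * (Real.sqrt (C / r) * 3) * ‖x‖ = (r * Real.sqrt (C / r)) * (3 * ‖Z‖ * ‖x‖) := by ring
        _ = _ := by rw [f13]; ring
    rw [hdec]
    refine (norm_add_le _ _).trans ?_
    have est2 : ‖∑ j, ∑ c ∈ T, Mf μ R (g1 j c) (Z (Mf μ R' (fun γ => on (B c) γ *
        ((qq (e γ) (f γ) j k : ℝ) : ℂ)) x))‖ ≤ N * (3 * Real.sqrt C * ‖Z‖ * ‖x‖ * Real.sqrt r) := by
      refine (norm_sum_le _ _).trans ((Finset.sum_le_sum fun j _ => est1 j).trans (le_of_eq ?_))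
      rw [Finset.sum_const, Finset.card_univ, Fintype.card_fin, nsmul_eq_mul]
    calc _ ≤ K * Real.sqrt C * ‖Z‖ * ‖x‖ * Real.sqrt r + N * (3 * Real.sqrt C * ‖Z‖ * ‖x‖ * Real.sqrt r) :=
          add_le_add est0 est2
      _ = _ := by ring
  -- the limit
  have hlim : Tendsto (fun n : ℕ => (K * Real.sqrt C + N * (3 * Real.sqrt C)) * ‖Z‖ * ‖x‖ *
      Real.sqrt (1 / ((n : ℝ) + 1))) atTop (𝓝 0) := by
    have h1 : Tendsto (fun n : ℕ => Real.sqrt (1 / ((n : ℝ) + 1))) atTop (𝓝 (Real.sqrt 0)) :=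
      (Real.continuous_sqrt.tendsto 0).comp tendsto_one_div_add_atTop_nhds_zero_nat
    rw [Real.sqrt_zero] at h1
    simpa using h1.const_mul ((K * Real.sqrt C + N * (3 * Real.sqrt C)) * ‖Z‖ * ‖x‖)
  have h2 : ‖y‖ ≤ 0 := by
    refine ge_of_tendsto' hlim fun n => key _ (by positivity) ?_
    rw [div_le_one (by positivity)]
    linarith [Nat.cast_nonneg (α := ℝ) n]
  exact norm_le_zero_iff.1 h2

end Pool.Agent.Helper84.OB
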