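import Pool.Agent.Helper84.OB.S1Defs
import Pool.Agent.Helper84.OB.Abs

/-!
# Project OB (MP_0f6f3f_an, target `so(2, n)`), layer S1: incidence in the form `p_x (1 - P_l) = 0`

Let `Z` vanish on the pairs (point, line) which are not incident. Then `∑ j, M(p_ij) Z M((1 - P)_jk) = 0`. Proof (`s1_abs`): cut the space of points into cells of size `r`; on the cell `c` the function `p_x (1 - P_l)`
is `p_c (1 - P_l) + O(r) (1 - P_l)`, only the lines `l` near the cell count, there `p_c (1 - P_l) = O(r)`, and every line is near at most `C / r` cells (`cells_count`: a projective line has dimension one). The row-column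
estimate `norm_sum_row_le` gives the bound `C r √(C / r)`.
-/

set_option autoImplicit false
set_option linter.unusedSectionVars false

open MeasureTheory Filter Topology Matrix

namespace Pool.Agent.Helper84.OB

open Pool.Agent.Helper84 Pool.Agent.Helper84.GN Pool.Agent.Helper84.GN.S3 Pool.Agent.Helper84.GN.S3.X
open Pool.Agent.Helper84.NI Pool.Agent.Helper84.GVN Pool.Agent.Helper90.RK Pool.Agent.Helper78.BM
open Pool.Agent.Helper96.RK Pool.Agent.Helper66.FR Pool.Agent.Helper84.FR Pool.Agent.Helper55.FR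

section Vec

variable {G : Type} [Group G] {N : ℕ} {P : PH G N}

/-- The columns of the matrix of the right singular vectors. -/
noncomputable def col (S : Sv P) (a : Fin N) (γ : G) (i : Fin N) : ℝ := (S.kR γ i a).re

theorem col_coe (S : Sv P) (hre : ∀ γ i j, (S.kR γ i j).im = 0) (a : Fin N) (γ : G) (i : Fin N) :
    S.kR γ i a = ((col S a γ i : ℝ) : ℂ) := by
  apply Complex.ext
  · rfl
  · rw [hre, Complex.ofReal_im]

theorem col_orth (S : Sv P) (hre : ∀ γ i j, (S.kR γ i j).im = 0) (a b : Fin N) (γ : G) :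
    ∑ i, col S a γ i * col S b γ i = if a = b then 1 else 0 := by
  have h1 : ((S.kR γ)ᴴ * S.kR γ) a b = (1 : MN N) a b := by rw [S.uR γ]
  rw [Matrix.mul_apply, Matrix.one_apply] at h1
  have h2 : ((∑ i, col S a γ i * col S b γ i : ℝ) : ℂ) = if a = b then 1 else 0 := by
    rw [← h1, Complex.ofReal_sum]
    refine Finset.sum_congr rfl fun i _ => ?_
    rw [Matrix.conjTranspose_apply, col_coe S hre a γ i, col_coe S hre b γ i, Complex.ofReal_mul]
    simp
  have h3 : ((if a = b then 1 else 0 : ℝ) : ℂ) = if a = b then (1 : ℂ) else 0 := by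
    split_ifs <;> simp
  rw [← h3] at h2
  exact Complex.ofReal_injective h2

theorem fl_apply (S : Sv P) (hre : ∀ γ i j, (S.kR γ i j).im = 0) (k : ℕ) (γ : G) (i j : Fin N) :
    fl S k γ i j = ((∑ a : Fin N, if (a : ℕ) < k then col S a γ i * col S a γ j else 0 : ℝ) : ℂ) := by
  unfold fl
  rw [Matrix.mul_assoc, Matrix.mul_apply, Complex.ofReal_sum]
  refine Finset.sum_congr rfl fun a _ => ?_
  rw [Matrix.diagonal_mul, Matrix.conjTranspose_apply, col_coe S hre a γ i, col_coe S hre a γ j]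
  split_ifs
  · simp
  · simp

theorem fl_one (S : Sv P) (hre : ∀ γ i j, (S.kR γ i j).im = 0) (γ : G) (i j : Fin N) {z : Fin N} (hz : (z : ℕ) = 0) :
    fl S 1 γ i j = ((col S z γ i * col S z γ j : ℝ) : ℂ) := by
  rw [fl_apply S hre]
  congr 1
  rw [Finset.sum_eq_single z]
  · rw [if_pos (by omega)]
  · intro b _ hb
    rw [if_neg]
    intro h
    exact hb (Fin.ext (by omega))
  · intro h
    exact absurd (Finset.mem_univ z) h

theorem fl_two (S : Sv P) (hre : ∀ γ i j, (S.kR γ i j).im = 0) (γ : G) (i j : Fin N) {z u : Fin N} (hz : (z : ℕ) = 0)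
    (hu : (u : ℕ) = 1) :
    fl S 2 γ i j = ((col S z γ i * col S z γ j + col S u γ i * col S u γ j : ℝ) : ℂ) := by
  rw [fl_apply S hre]
  congr 1
  have hzu : z ≠ u := fun h => by
    rw [h] at hz
    omega
  rw [Finset.sum_eq_add z u hzu]
  · rw [if_pos (by omega), if_pos (by omega)]
  · intro b _ hb
    rw [if_neg]
    intro h
    rcases (show (b : ℕ) = 0 ∨ (b : ℕ) = 1 by omega) with h0 | h0
    · exact hb.1 (Fin.ext (by omega))
    · exact hb.2 (Fin.ext (by omega))
  · intro h
    exact absurd (Finset.mem_univ z) h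
  · intro h
    exact absurd (Finset.mem_univ u) h

theorem one_sub_fl_two (S : Sv P) (hre : ∀ γ i j, (S.kR γ i j).im = 0) (γ : G) (j k : Fin N) {z u : Fin N}
    (hz : (z : ℕ) = 0) (hu : (u : ℕ) = 1) :
    (1 - fl S 2 γ) j k = ((qq (col S z γ) (col S u γ) j k : ℝ) : ℂ) := by
  rw [Matrix.sub_apply, fl_two S hre γ j k hz hu, Matrix.one_apply]
  unfold qq
  split_ifs
  · push_cast
    ring
  · push_cast
    ring

/-- The measure of non-incidence. -/
theorem ns_noninc (S : Sv P) (hre : ∀ γ i j, (S.kR γ i j).im = 0) (γ γ' : G) {z u : Fin N}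
    (hz : (z : ℕ) = 0) (hu : (u : ℕ) = 1) :
    ns (fl S 1 γ * (1 - fl S 2 γ')) = dd (col S z γ) (col S z γ') (col S u γ') := by
  have h1 : ∀ a i, (fl S 1 γ * (1 - fl S 2 γ')) a i = ((col S z γ a * (col S z γ i -
      (∑ j, col S z γ j * col S z γ' j) * col S z γ' i - (∑ j, col S z γ j * col S u γ' j) * col S u γ' i) : ℝ) : ℂ) := by
    intro a i
    rw [Matrix.mul_apply, ← sum_mul_qq, Finset.mul_sum, Complex.ofReal_sum]
    refine Finset.sum_congr rfl fun j _ => ?_
    rw [fl_one S hre γ a j hz, one_sub_fl_two S hre γ' j i hz hu]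
    push_cast
    ring
  unfold ns dd
  have h2 : ∀ a i, ‖(fl S 1 γ * (1 - fl S 2 γ')) a i‖ ^ 2 = col S z γ a ^ 2 * (col S z γ i -
      (∑ j, col S z γ j * col S z γ' j) * col S z γ' i - (∑ j, col S z γ j * col S u γ' j) * col S u γ' i) ^ 2 := by
    intro a i
    rw [h1, Complex.norm_real, Real.norm_eq_abs, sq_abs, mul_pow]
  rw [Finset.sum_congr rfl fun a _ => Finset.sum_congr rfl fun i _ => h2 a i,
    Finset.sum_congr rfl fun a _ => (Finset.mul_sum _ _ _).symm, ← Finset.sum_mul]
  have h3 : ∑ a, col S z γ a ^ 2 = 1 := by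
    have h4 := col_orth S hre z z γ
    rw [if_pos rfl] at h4
    rw [← h4]
    exact Finset.sum_congr rfl fun a _ => sq _
  rw [h3, one_mul]

end Vec

variable {X G : Type} [MeasurableSpace X] [Group G] {μ : Measure X} {R R' : Reg G} {N : ℕ} {P : PH G N}

/-- **(S1)**: an operator which vanishes on the non-incident pairs satisfies `p_x (1 - P_l) = 0`. -/
theorem s1_main (S : Sv P) (hre : ∀ γ i j, (S.kR γ i j).im = 0) (Z : XUa μ R' →L[ℂ] XUa μ R)
    (hloc : ∀ A B : Set G, NonInc S A B → ∀ x, iUX R A (Z (iUX R' B x)) = 0) (i k : Fin N) (x : XUa μ R') :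
    ∑ j, Mf μ R (fun γ => fl S 1 γ i j) (Z (Mf μ R' (fun γ => (1 - fl S 2 γ) j k) x)) = 0 := by
  by_cases hN : N = 1
  · subst hN
    have h1 : ∀ γ, 1 - fl S 2 γ = 0 := by
      intro γ
      unfold fl
      have h2 : (diagonal fun i : Fin 1 => if (i : ℕ) < 2 then (1 : ℂ) else 0) = 1 := by
        ext a b
        have hab : a = b := Subsingleton.elim _ _
        rw [Matrix.diagonal_apply, Matrix.one_apply, if_pos hab, if_pos hab, if_pos (by omega)]
      rw [h2, Matrix.mul_one, mul_eq_one_comm.1 (S.uR γ), sub_self]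
    refine Finset.sum_eq_zero fun j _ => ?_
    have h3 : (fun γ => (1 - fl S 2 γ) j k) = fun _ => (0 : ℂ) := by
      funext γ
      rw [h1]
      rfl
    rw [h3, Mf_const, zero_smul, map_zero, map_zero]
  · have hi := i.2
    have hN2 : 2 ≤ N := by omega
    obtain ⟨z, hz⟩ : ∃ z : Fin N, (z : ℕ) = 0 := ⟨⟨0, by omega⟩, rfl⟩
    obtain ⟨u, hu⟩ : ∃ u : Fin N, (u : ℕ) = 1 := ⟨⟨1, by omega⟩, rfl⟩
    have hzu : z ≠ u := fun h => by
      rw [h] at hz
      omega
    have ho : ∀ (a : Fin N) γ, ∑ i, col S a γ i ^ 2 = 1 := by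
      intro a γ
      have h4 := col_orth S hre a a γ
      rw [if_pos rfl] at h4
      rw [← h4]
      exact Finset.sum_congr rfl fun _ _ => sq _
    have h1 := s1_abs (μ := μ) (R := R) (R' := R') (col S z) (col S z) (col S u) (ho z) (ho z) (ho u)
      (fun γ => by rw [col_orth S hre, if_neg hzu]) Z (fun A B δ hδ hAB x => hloc A B ⟨δ, hδ, fun γ hγ γ' hγ' => by
        rw [ns_noninc S hre γ γ' hz hu]
        exact hAB γ hγ γ' hγ'⟩ x) i k x
    refine Eq.trans (Finset.sum_congr rfl fun j _ => ?_) h1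
    have e1 : (fun γ => fl S 1 γ i j) = fun γ => ((col S z γ i * col S z γ j : ℝ) : ℂ) := by
      funext γ
      exact fl_one S hre γ i j hz
    have e2 : (fun γ => (1 - fl S 2 γ) j k) = fun γ => ((qq (col S z γ) (col S u γ) j k : ℝ) : ℂ) := by
      funext γ
      exact one_sub_fl_two S hre γ j k hz hu
    rw [e1, e2]

end Pool.Agent.Helper84.OB
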