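import Pool.Agent.Helper84.OB.SizO
import Pool.Agent.Helper9.FP.Uni

/-!
# Project OB (MP_0f6f3f_an): the group `PJ J = O(J) / {1, -1}`

`J` a symmetric matrix with `J² = 1`. `PJ J` is locally compact, second countable, Hausdorff, unimodular, with a size function of dimension at most `n (n - 1) / 2`. `mkP J : OJ J →* PJ J` the projection; `KO J`, `KP J`: the orthogonal
matrices.
-/

set_option autoImplicit false
set_option linter.unusedSectionVars false

open Filter Topology MeasureTheory Matrix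

namespace Pool.Agent.Helper84.OB

open Pool.Agent.Helper96.SA
open Pool.Agent.Helper43.TZ (Siz)

variable {n : ℕ} {J : Mat n}

/-- The matrix of an element of `OJ J`. -/
def mt (g : OJ J) : Mat n := ((g : GL (Fin n) ℝ) : Mat n)

theorem mt_mul (g h : OJ J) : mt (g * h) = mt g * mt h := rfl

theorem mt_one : mt (1 : OJ J) = 1 := rfl

theorem mt_inj {g h : OJ J} (e : mt g = mt h) : g = h := Subtype.ext (Units.ext e)

theorem mt_form (g : OJ J) : (mt g)ᵀ * J * mt g = J := g.2

theorem mt_mul_inv (g : OJ J) : mt g * mt g⁻¹ = 1 := by rw [← mt_mul, mul_inv_cancel, mt_one]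

theorem mt_inv_mul (g : OJ J) : mt g⁻¹ * mt g = 1 := by rw [← mt_mul, inv_mul_cancel, mt_one]

theorem continuous_mt : Continuous (mt : OJ J → Mat n) := Units.continuous_val.comp continuous_subtype_val

theorem isEmbedding_mt : IsEmbedding (mt : OJ J → Mat n) := isEmbedding_val.comp IsEmbedding.subtypeVal

/-- An element of `OJ J` given by its matrix. -/
def mkO (h1 : J * J = 1) (A : Mat n) (hA : Aᵀ * J * A = J) : OJ J :=
  ⟨⟨A, J * Aᵀ * J, mul_eq_one_comm.1 (by rw [mul_assoc, mul_assoc, ← mul_assoc Aᵀ, hA, h1]),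
    by rw [mul_assoc, mul_assoc, ← mul_assoc Aᵀ, hA, h1]⟩, hA⟩

theorem mt_mkO (h1 : J * J = 1) (A : Mat n) (hA : Aᵀ * J * A = J) : mt (mkO h1 A hA) = A := rfl

instance : LocallyCompactSpace (Mat n) := inferInstanceAs (LocallyCompactSpace (Fin n → Fin n → ℝ))

instance : SecondCountableTopology (Mat n) := inferInstanceAs (SecondCountableTopology (Fin n → Fin n → ℝ))

instance instLC : LocallyCompactSpace (OJ J) := (isClosed_OJ J).isClosedEmbedding_subtypeVal.locallyCompactSpace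

instance instSC : SecondCountableTopology (OJ J) := isEmbedding_mt.secondCountableTopology

/-- `{1, -1}`. -/
def pmJ (J : Mat n) : Subgroup (OJ J) where
  carrier := {g | mt g = 1 ∨ mt g = -1}
  mul_mem' {g h} hg hh := by
    have hg' : mt g = 1 ∨ mt g = -1 := hg
    have hh' : mt h = 1 ∨ mt h = -1 := hh
    show mt (g * h) = 1 ∨ mt (g * h) = -1
    rw [mt_mul]
    rcases hg' with e | e <;> rcases hh' with f | f <;> rw [e, f] <;> simp
  one_mem' := Or.inl rfl
  inv_mem' {g} hg := by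
    have hg' : mt g = 1 ∨ mt g = -1 := hg
    show mt g⁻¹ = 1 ∨ mt g⁻¹ = -1
    have h1 := mt_mul_inv g
    rcases hg' with e | e
    · rw [e, one_mul] at h1
      exact Or.inl h1
    · rw [e, neg_mul, one_mul] at h1
      exact Or.inr (by rw [← h1, neg_neg])

theorem mem_pmJ {g : OJ J} : g ∈ pmJ J ↔ mt g = 1 ∨ mt g = -1 := Iff.rfl

instance : (pmJ J).Normal := ⟨by
  intro z hz g
  have hz' : mt z = 1 ∨ mt z = -1 := hz
  show mt (g * z * g⁻¹) = 1 ∨ mt (g * z * g⁻¹) = -1
  rw [mt_mul, mt_mul]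
  rcases hz' with e | e
  · rw [e, mul_one, mt_mul_inv]
    exact Or.inl rfl
  · rw [e, mul_neg, mul_one, neg_mul, mt_mul_inv]
    exact Or.inr rfl⟩

theorem finite_pmJ : (pmJ J : Set (OJ J)).Finite := by
  have h1 : (mt '' (pmJ J : Set (OJ J))).Finite := by
    refine Set.Finite.subset (Set.toFinite {1, -1}) ?_
    rintro _ ⟨g, hg, rfl⟩
    exact hg
  exact Set.Finite.of_finite_image h1 fun g _ h _ e => mt_inj e

instance isClosed_pmJ : IsClosed (pmJ J : Set (OJ J)) := finite_pmJ.isClosed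

/-- The group `O(J) / {1, -1}`. -/
def PJ (J : Mat n) : Type := OJ J ⧸ pmJ J

noncomputable instance : Group (PJ J) := inferInstanceAs (Group (OJ J ⧸ pmJ J))

instance : TopologicalSpace (PJ J) := inferInstanceAs (TopologicalSpace (OJ J ⧸ pmJ J))

instance : IsTopologicalGroup (PJ J) := inferInstanceAs (IsTopologicalGroup (OJ J ⧸ pmJ J))

instance : LocallyCompactSpace (PJ J) := inferInstanceAs (LocallyCompactSpace (OJ J ⧸ pmJ J))

instance : SecondCountableTopology (PJ J) := inferInstanceAs (SecondCountableTopology (OJ J ⧸ pmJ J))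

instance : T2Space (PJ J) := inferInstanceAs (T2Space (OJ J ⧸ pmJ J))

instance : MeasurableSpace (PJ J) := borel _

instance : BorelSpace (PJ J) := ⟨rfl⟩

/-- The projection. -/
def mkP (J : Mat n) : OJ J →* PJ J := QuotientGroup.mk' (pmJ J)

theorem mkP_surj : Function.Surjective (mkP J) := QuotientGroup.mk'_surjective _

theorem continuous_mkP : Continuous (mkP J) := continuous_quotient_mk'

theorem isOpenMap_mkP : IsOpenMap (mkP J) := QuotientGroup.isOpenMap_coe

theorem isQuotientMap_mkP : IsQuotientMap (mkP J) := isOpenMap_mkP.isQuotientMap continuous_mkP mkP_surj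

theorem ker_mkP : (mkP J).ker = pmJ J := QuotientGroup.ker_mk' _

theorem mkP_eq_iff {g h : OJ J} : mkP J g = mkP J h ↔ mt g = mt h ∨ mt g = -mt h := by
  have h1 : mkP J g = mkP J h ↔ g⁻¹ * h ∈ pmJ J := QuotientGroup.eq
  rw [h1, mem_pmJ, mt_mul]
  constructor
  · rintro (e | e)
    · left
      calc mt g = mt g * (mt g⁻¹ * mt h) := by rw [e, mul_one]
        _ = mt h := by rw [← mul_assoc, mt_mul_inv, one_mul]
    · right
      have : mt h = mt g * (mt g⁻¹ * mt h) := by rw [← mul_assoc, mt_mul_inv, one_mul]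
      rw [this, e, mul_neg, mul_one, neg_neg]
  · rintro (e | e)
    · left
      rw [← e, mt_inv_mul]
    · right
      have : mt h = -mt g := by rw [e, neg_neg]
      rw [this, mul_neg, mt_inv_mul]

/-- The orthogonal matrices. -/
def KO (J : Mat n) : Subgroup (OJ J) where
  carrier := {g | (mt g)ᵀ * mt g = 1}
  mul_mem' {g h} hg hh := by
    have hg' : (mt g)ᵀ * mt g = 1 := hg
    have hh' : (mt h)ᵀ * mt h = 1 := hh
    show (mt (g * h))ᵀ * mt (g * h) = 1
    rw [mt_mul, transpose_mul, mul_assoc, ← mul_assoc (mt g)ᵀ, hg', one_mul, hh']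
  one_mem' := by
    show (mt (1 : OJ J))ᵀ * mt (1 : OJ J) = 1
    rw [mt_one, transpose_one, mul_one]
  inv_mem' {g} hg := by
    have hg' : (mt g)ᵀ * mt g = 1 := hg
    show (mt g⁻¹)ᵀ * mt g⁻¹ = 1
    have h1 : mt g⁻¹ = (mt g)ᵀ := by
      calc mt g⁻¹ = ((mt g)ᵀ * mt g) * mt g⁻¹ := by rw [hg', one_mul]
        _ = (mt g)ᵀ := by rw [mul_assoc, mt_mul_inv, mul_one]
    rw [h1, transpose_transpose]
    exact mul_eq_one_comm.1 hg'

theorem mem_KO {g : OJ J} : g ∈ KO J ↔ (mt g)ᵀ * mt g = 1 := Iff.rfl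

theorem isCompact_orth : IsCompact {A : Mat n | Aᵀ * A = 1} := by
  have h1 : IsCompact {A : Mat n | ∀ i j, A i j ∈ Set.Icc (-1 : ℝ) 1} := by
    have h2 : IsCompact (Set.pi Set.univ fun _ : Fin n => Set.pi Set.univ fun _ : Fin n => Set.Icc (-1 : ℝ) 1) :=
      isCompact_univ_pi fun _ => isCompact_univ_pi fun _ => isCompact_Icc
    have h3 : {A : Mat n | ∀ i j, A i j ∈ Set.Icc (-1 : ℝ) 1} = Set.pi Set.univ fun _ : Fin n => Set.pi Set.univ fun _ : Fin n => Set.Icc (-1 : ℝ) 1 := by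
      ext A
      exact ⟨fun h i _ j _ => h i j, fun h i j => h i trivial j trivial⟩
    rw [h3]
    exact h2
  have hcl : IsClosed {A : Mat n | Aᵀ * A = 1} := isClosed_eq (continuous_id.matrix_transpose.mul continuous_id) continuous_const
  refine h1.of_isClosed_subset hcl fun A hA i j => ?_
  have h2 : (Aᵀ * A) j j = 1 := by
    have hA' : Aᵀ * A = 1 := hA
    rw [hA', one_apply_eq]
  rw [mul_apply] at h2
  have h3 : A i j ^ 2 ≤ 1 := by
    rw [← h2]
    refine le_trans (le_of_eq ?_) (Finset.single_le_sum (f := fun k => Aᵀ j k * A k j) (fun k _ => ?_) (Finset.mem_univ i))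
    · show A i j ^ 2 = A i j * A i j
      rw [sq]
    · show 0 ≤ A k j * A k j
      exact mul_self_nonneg _
  exact abs_le.1 ((sq_le_one_iff_abs_le_one _).1 h3)

theorem isCompact_KO : IsCompact (KO J : Set (OJ J)) := by
  have hr : {A : Mat n | Aᵀ * A = 1} ⊆ Set.range (fun g : GL (Fin n) ℝ => (g : Mat n)) := by
    intro A hA
    exact ⟨⟨A, Aᵀ, mul_eq_one_comm.1 hA, hA⟩, rfl⟩
  have h3 : IsCompact ((fun g : GL (Fin n) ℝ => (g : Mat n)) ⁻¹' {A : Mat n | Aᵀ * A = 1}) :=
    (isEmbedding_val.isInducing.isCompact_preimage_iff hr).2 isCompact_orth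
  exact (isClosed_OJ J).isClosedEmbedding_subtypeVal.isCompact_preimage h3

/-- The image of the orthogonal matrices. -/
noncomputable def KP (J : Mat n) : Subgroup (PJ J) := (KO J).map (mkP J)

theorem isCompact_KP : IsCompact (KP J : Set (PJ J)) := isCompact_KO.image continuous_mkP

theorem mkP_mem_KP {g : OJ J} : mkP J g ∈ KP J ↔ g ∈ KO J := by
  constructor
  · rintro ⟨k, hk, hkg⟩
    have hk' : (mt k)ᵀ * mt k = 1 := hk
    rcases mkP_eq_iff.1 hkg.symm with e | e
    · rw [mem_KO, e, hk']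
    · rw [mem_KO, e, transpose_neg, neg_mul_neg, hk']
  · intro h
    exact ⟨g, h, rfl⟩

section Pol

open scoped MatrixOrder ComplexOrder

/-- The polar decomposition in `OJ J`. -/
theorem exists_polar (hs : Jᵀ = J) (h1 : J * J = 1) (g : OJ J) :
    ∃ k ∈ KO J, ∃ p : OJ J, g = k * p ∧ J * mt p * J = mt p⁻¹ ∧ (mt p).PosDef := by
  have ht : ∀ A : Mat n, Aᴴ = Aᵀ := fun A => conjTranspose_eq_transpose_of_trivial A
  set s : Mat n := (mt g)ᵀ * mt g with hsd
  have hs0 : 0 ≤ s := by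
    have := posSemidef_conjTranspose_mul_self (mt g)
    rw [ht] at this
    exact this.nonneg
  obtain ⟨p, hp⟩ : ∃ p, p = CFC.sqrt s := ⟨_, rfl⟩
  have hp0 : 0 ≤ p := by
    rw [hp]
    exact CFC.sqrt_nonneg _
  have hpp : p * p = s := by
    rw [hp]
    exact CFC.sqrt_mul_sqrt_self _ hs0
  have hph : pᵀ = p := by
    rw [← ht]
    exact hp0.posSemidef.isHermitian
  -- the inverse
  have hsu : s * (mt g⁻¹ * (mt g⁻¹)ᵀ) = 1 := by
    have e1 : (mt g)ᵀ * (mt g⁻¹)ᵀ = 1 := by rw [← transpose_mul, mt_inv_mul, transpose_one]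
    rw [hsd, mul_assoc, ← mul_assoc (mt g), mt_mul_inv, one_mul, e1]
  have hgu : mt g * (J * (mt g)ᵀ * J) = 1 := mul_eq_one_comm.1 (by
    rw [mul_assoc, mul_assoc, ← mul_assoc (mt g)ᵀ, mt_form, h1])
  have hgi : mt g⁻¹ = J * (mt g)ᵀ * J := by
    calc mt g⁻¹ = mt g⁻¹ * (mt g * (J * (mt g)ᵀ * J)) := by rw [hgu, mul_one]
      _ = _ := by rw [← mul_assoc, mt_inv_mul, one_mul]
  have hpu : p * (p * (mt g⁻¹ * (mt g⁻¹)ᵀ)) = 1 := by rw [← mul_assoc, hpp, hsu]
  obtain ⟨r, hr⟩ : ∃ r, r = p * (mt g⁻¹ * (mt g⁻¹)ᵀ) := ⟨_, rfl⟩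
  rw [← hr] at hpu
  have hru : r * p = 1 := mul_eq_one_comm.1 hpu
  have hrt : rᵀ = r := by
    have e1 : p * rᵀ = 1 := by
      have := congrArg transpose hru
      rwa [transpose_mul, hph, transpose_one] at this
    calc rᵀ = (r * p) * rᵀ := by rw [hru, one_mul]
      _ = r := by rw [mul_assoc, e1, mul_one]
  have hr0 : 0 ≤ r := by
    have e1 : r = rᴴ * p * r := by rw [ht, hrt, hru, one_mul]
    rw [e1]
    exact (hp0.posSemidef.conjTranspose_mul_mul_same r).nonneg
  have hrr : r * r * s = 1 := by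
    rw [← hpp, mul_assoc, ← mul_assoc r p p, hru, one_mul, hru]
  have hq0 : 0 ≤ J * p * J := by
    have e1 : J * p * J = Jᴴ * p * J := by rw [ht, hs]
    rw [e1]
    exact (hp0.posSemidef.conjTranspose_mul_mul_same J).nonneg
  have hsJ : J * s * J * s = 1 := by
    have e1 : (mt g)ᵀ = J * mt g⁻¹ * J := by
      rw [hgi]
      simp only [← mul_assoc]
      rw [h1, one_mul, mul_assoc, h1, mul_one]
    rw [hsd]
    have e2 : J * ((mt g)ᵀ * mt g) * J * ((mt g)ᵀ * mt g) = J * (mt g)ᵀ * mt g * (J * (mt g)ᵀ * J) * (J * mt g) := by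
      have e3 : (J * (mt g)ᵀ * J) * (J * mt g) = J * ((mt g)ᵀ * mt g) := by
        simp only [mul_assoc]
        rw [← mul_assoc J J, h1, one_mul]
      rw [mul_assoc (J * (mt g)ᵀ * mt g), e3]
      simp only [mul_assoc]
    rw [e2, mul_assoc (J * (mt g)ᵀ), hgu, mul_one]
    rw [mul_assoc, ← mul_assoc (mt g)ᵀ, mt_form, h1]
  have hqq : (J * p * J) * (J * p * J) = r * r := by
    have e1 : (J * p * J) * (J * p * J) = J * s * J := by
      rw [← hpp]
      simp only [mul_assoc]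
      rw [← mul_assoc J J, h1, one_mul]
    rw [e1]
    have e2 : s * (r * r) = 1 := mul_eq_one_comm.1 hrr
    calc J * s * J = J * s * J * (s * (r * r)) := by rw [e2, mul_one]
      _ = (J * s * J * s) * (r * r) := (mul_assoc _ _ _).symm
      _ = r * r := by rw [hsJ, one_mul]
  have hq : J * p * J = r := by
    have e1 := CFC.sqrt_unique hqq hq0
    have e2 := CFC.sqrt_mul_self r hr0
    rw [← e1, e2]
  have hpO : pᵀ * J * p = J := by
    rw [hph]
    calc p * J * p = (J * J) * (p * J * p) := by rw [h1, one_mul]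
      _ = J * ((J * p * J) * p) := by simp only [mul_assoc]
      _ = J := by rw [hq, hru, mul_one]
  let P : OJ J := mkO h1 p hpO
  have hP : mt P = p := rfl
  have hPi : mt P⁻¹ = r := by
    calc mt P⁻¹ = mt P⁻¹ * (p * r) := by rw [hpu, mul_one]
      _ = (mt P⁻¹ * mt P) * r := by rw [hP, mul_assoc]
      _ = r := by rw [mt_inv_mul, one_mul]
  refine ⟨g * P⁻¹, ?_, P, by rw [inv_mul_cancel_right], by rw [hP, hPi, hq], ?_⟩
  · rw [mem_KO, mt_mul, hPi, transpose_mul, hrt, mul_assoc, ← mul_assoc (mt g)ᵀ, ← hsd, ← hpp, mul_assoc p p, hpu, mul_one, hru]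
  · rw [hP]
    refine hp0.posSemidef.posDef_iff_isUnit.2 ?_
    exact ⟨⟨p, r, hpu, hru⟩, rfl⟩

end Pol

/-- `J` as an element of `OJ J`. -/
def jO (hs : Jᵀ = J) (h1 : J * J = 1) : OJ J := mkO h1 J (by rw [hs, h1, one_mul])

/-- **`PJ J` is unimodular.** -/
theorem unimodular_PJ (hs : Jᵀ = J) (h1 : J * J = 1) (ν : Measure (PJ J)) [ν.IsHaarMeasure] : ν.IsMulRightInvariant := by
  refine Pool.Agent.Helper9.Lin.unimodular_of (MulAut.conj (mkP J (jO hs h1))) ?_ ?_ (K := KP J) isCompact_KP (fun x => ?_) ν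
  · exact (continuous_const_mul _).mul continuous_const
  · exact (continuous_const_mul _).mul continuous_const
  · obtain ⟨g, rfl⟩ := mkP_surj x
    obtain ⟨k, hk, p, hg, hp, -⟩ := exists_polar hs h1 g
    refine ⟨mkP J k, mkP_mem_KP.2 hk, mkP J p, by rw [← map_mul, ← hg], ?_⟩
    rw [MulAut.conj_apply, ← map_mul, ← map_inv, ← map_mul, ← map_inv]
    congr 1
    apply mt_inj
    have h2 : mt (jO hs h1)⁻¹ = J := by
      have e : (jO hs h1)⁻¹ = jO hs h1 := by
        rw [inv_eq_iff_mul_eq_one]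
        apply mt_inj
        rw [mt_mul, mt_one]
        exact h1
      rw [e]
      rfl
    rw [mt_mul, mt_mul, h2, ← hp]
    rfl

/-- **`OJ J` is unimodular.** -/
theorem unimodular_OJ (hs : Jᵀ = J) (h1 : J * J = 1) [MeasurableSpace (OJ J)] [BorelSpace (OJ J)] (ν : Measure (OJ J))
    [ν.IsHaarMeasure] : ν.IsMulRightInvariant := by
  refine Pool.Agent.Helper9.Lin.unimodular_of (MulAut.conj (jO hs h1)) ?_ ?_ (K := KO J) isCompact_KO (fun g => ?_) ν
  · exact (continuous_const_mul _).mul continuous_const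
  · exact (continuous_const_mul _).mul continuous_const
  · obtain ⟨k, hk, p, hg, hp, -⟩ := exists_polar hs h1 g
    refine ⟨k, hk, p, hg, ?_⟩
    rw [MulAut.conj_apply]
    apply mt_inj
    have h2 : mt (jO hs h1)⁻¹ = J := by
      have e : (jO hs h1)⁻¹ = jO hs h1 := by
        rw [inv_eq_iff_mul_eq_one]
        apply mt_inj
        rw [mt_mul, mt_one]
        exact h1
      rw [e]
      rfl
    rw [mt_mul, mt_mul, h2, ← hp]
    rfl

/-- **The size function of `PJ J`.** -/
theorem exists_sizP (hs : Jᵀ = J) (h1 : J * J = 1) (ν : Measure (PJ J)) [ν.IsHaarMeasure] :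
    ∃ z : Siz (PJ J) ν, z.d ≤ n * (n - 1) / 2 := by
  have hr := unimodular_PJ hs h1 ν
  obtain ⟨z, hz, -⟩ := exists_sizQ (j := (OJ J).subtype) (π := mkP J) mkP_surj (by rw [ker_mkP]; exact finite_pmJ)
    (isClosed_OJ J).isClosedEmbedding_subtypeVal (chart_OJ h1) continuous_mkP isOpenMap_mkP ν
  exact ⟨z, by rw [hz]; exact finrank_soJ hs h1⟩

/-- **The size function of `OJ J`.** -/
theorem exists_sizO (hs : Jᵀ = J) (h1 : J * J = 1) [MeasurableSpace (OJ J)] [BorelSpace (OJ J)] (ν : Measure (OJ J)) [ν.IsHaarMeasure] :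
    ∃ z : Siz (OJ J) ν, z.d ≤ n * (n - 1) / 2 := by
  have hr := unimodular_OJ hs h1 ν
  obtain ⟨z, hz, -⟩ := exists_siz (j := (OJ J).subtype) (isClosed_OJ J).isClosedEmbedding_subtypeVal (chart_OJ h1) ν
  exact ⟨z, by rw [hz]; exact finrank_soJ hs h1⟩

instance instMO : MeasurableSpace (OJ J) := borel _

instance instBO : BorelSpace (OJ J) := ⟨rfl⟩

/-- Everything at once. -/
theorem exists_haarO (hs : Jᵀ = J) (h1 : J * J = 1) :
    ∃ ν : Measure (OJ J), ν.IsHaarMeasure ∧ ν.IsMulRightInvariant ∧ ∃ z : Siz (OJ J) ν, z.d ≤ n * (n - 1) / 2 :=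
  ⟨Measure.haar, inferInstance, unimodular_OJ hs h1 _, exists_sizO hs h1 _⟩

end Pool.Agent.Helper84.OB
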