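import Pool.Agent.Helper87.OB.N2F
import Pool.Agent.Helper46.OB.N1J

/-!
# Project OB (MP_0f6f3f_an), layer TZ: amenability without averages

`amn_of`: `AmnG F` for frames in `GJ` with the representation `irJ`, if every element of the kernel of the block map is the class of a lower triangular matrix (node 1).
`lt_of_mid`: `x ∈ HQ` (node 1) is lower triangular if its middle block is a scalar.
-/

set_option autoImplicit false
set_option linter.unusedSectionVars false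

open Filter Topology Matrix MeasureTheory

namespace Pool.Agent.Helper84.OB

open Pool.Agent.Helper90.RK Pool.Agent.Helper84.NI Pool.Agent.Helper78.BI Pool.Agent.Helper55.OB Pool.Agent.Helper9
open Pool.Agent.Helper35.FP Pool.Agent.Helper55.TZ Pool.Agent.Helper84.GN.S3 Pool.Agent.Helper87.OB

variable {N : ℕ} {q : Fin N}

/-- **Amenability.** -/
theorem amn_of {G : Type} [Group G] {P : PH G N} {S : Sv P} (h : SO2 P S) {𝕊 : Type} [Group 𝕊] [TopologicalSpace 𝕊]
    {𝕂 : Subgroup 𝕊} {geo : Geo (GJ h.hN q) 𝕊 𝕂} {T : Str S} (F : Frm geo T)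
    (hir : ∀ g, F.ir g = prJ h.hN q ⟨(fraJ h q).ie g, ie_mem h g⟩)
    (hker : ∀ y : geo.Q, geo.nb y = 1 → ∃ x : MJ h.hN q, prJ h.hN q x = y ∧ Lt ((sr q).mt (x : (sr q).M))) : AmnG F := by
  intro Q ε hε
  obtain ⟨ql, h1, h2, -, -⟩ := exists_ql N
  obtain ⟨A, κ, d, hd, k0, kA, kS, kh, kc⟩ := am_PH P Q (pow_pos hε 2)
  have h2' : ∀ A : MN N, A.det ≠ 0 → Lt ((ql A)ᴴ * A) := h2
  have hZ : ∀ a b : (sr q).M, a⁻¹ * b ∈ (sr q).Z0 → ∀ t, κ (ql ((sr q).mt a)) t = κ (ql ((sr q).mt b)) t := by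
    intro a b hab t
    have hx : Lt ((sr q).mt (a⁻¹ * b)) := by
      obtain ⟨c, -, hc⟩ := hab
      rw [hc]
      refine Lt.smul (fun i j hij => ?_) c
      exact one_apply_ne hij.ne
    have h3 := F_mul (sr q) h1 h2' kA kc t a (a⁻¹ * b) hx
    rw [mul_inv_cancel_left] at h3
    exact h3.symm
  obtain ⟨p, hp⟩ : ∃ p : G → GJ h.hN q → ℝ, ∀ t (g : MJ h.hN q), p t (prJ h.hN q g) = √(κ (ql ((sr q).mt (g : (sr q).M))) t) :=
    ⟨fun t x => √(κ (ql ((sr q).mt ((Function.surjInv (prJ_surj h.hN q) x : MJ h.hN q) : (sr q).M))) t), fun t g => congrArg Real.sqrt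
      (hZ _ _ (prJ_eq h.hN (Function.surjInv_eq (prJ_surj h.hN q) (prJ h.hN q g))) t)⟩
  refine ⟨A, p, fun t => ?_, fun t g => ?_, fun t ht g => ?_, fun g => ?_, fun t g y hy => ?_, fun h' hh g S'' => ?_⟩
  · rw [(isQuotientMap_prJ h.hN q).continuous_iff]
    exact (Real.continuous_sqrt.comp ((continuous_F (sr q) h1 h2' kA kc t).comp continuous_subtype_val)).congr
      fun g => (hp t g).symm
  · obtain ⟨g, rfl⟩ := prJ_surj h.hN q g
    exact (hp t g).symm ▸ Real.sqrt_nonneg _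
  · obtain ⟨g, rfl⟩ := prJ_surj h.hN q g
    rw [hp t g, kA _ t ht, Real.sqrt_zero]
  · obtain ⟨g, rfl⟩ := prJ_surj h.hN q g
    rw [← kS _ (h1 ((sr q).mt (g : (sr q).M)))]
    refine Finset.sum_congr rfl fun t _ => ?_
    rw [hp t g, Real.sq_sqrt (k0 _ t)]
  · obtain ⟨g, rfl⟩ := prJ_surj h.hN q g
    obtain ⟨x, hx, hlt⟩ := hker y hy
    have e1 : prJ h.hN q g * (y : GJ h.hN q) = prJ h.hN q (g * x) := by rw [map_mul, hx]
    rw [e1, hp, hp]
    congr 1
    exact F_mul (sr q) h1 h2' kA kc t g x hlt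
  · obtain ⟨g, rfl⟩ := prJ_surj h.hN q g
    have e1 : F.ir h' * prJ h.hN q g = prJ h.hN q (⟨(fraJ h q).ie h', ie_mem h h'⟩ * g) := by rw [hir, map_mul]
    have e2 : ∀ t ∈ S'', (p t (F.ir h' * prJ h.hN q g) - p (h'⁻¹ * t) (prJ h.hN q g)) ^ 2 ≤
        |κ (ql ((sr q).mt ((fraJ h q).ie h' * g))) t - κ (ql ((sr q).mt (g : (sr q).M))) (h'⁻¹ * t)| := by
      intro t _
      rw [e1, hp, hp]
      exact Pool.Agent.Helper55.TZ.sqrt_sub_sq_le (k0 _ _) (k0 _ _)
    refine (Finset.sum_le_sum e2).trans ?_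
    refine kh h' hh _ _ (h1 _) (h1 _) (fun i j hij => ?_) S''
    have e3 : (ql ((sr q).mt ((fraJ h q).ie h' * g)))ᴴ * P.ι h' * ql ((sr q).mt (g : (sr q).M)) =
        ((ql ((sr q).mt ((fraJ h q).ie h' * g)))ᴴ * (sr q).mt ((fraJ h q).ie h' * g)) *
          ((sr q).mt (g : (sr q).M)⁻¹ * ql ((sr q).mt (g : (sr q).M))) := by
      have e4 : (sr q).mt ((fraJ h q).ie h' * g) * (sr q).mt (g : (sr q).M)⁻¹ = P.ι h' := by
        rw [← Sg.mt_mul, ← (fraJ h q).mt_ie]
        congr 1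
        group
      rw [← e4]
      simp only [Matrix.mul_assoc]
    rw [e3]
    have h5 := ((h2' _ (det_ne ((sr q).mt_mul_inv ((fraJ h q).ie h' * g)))).mul
      (lt_inv_ql h1 h2' ((sr q).mt_mul_inv (g : (sr q).M)))) i j hij
    rw [h5, norm_zero]
    exact hd.le

section Mid

open Pool.Agent.Helper46.OB (lst)

theorem Em_diag (hN : 5 ≤ N) (hq : (q : ℕ) = 0) : Em q = diagonal fun i => if i = q ∨ i = lst hN then (0 : ℂ) else 1 := by
  unfold Em
  rw [Pool.Agent.Helper46.OB.E2_eq hN hq, Pool.Agent.Helper46.OB.Ef_eq hq]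
  have hne : q ≠ lst hN := by
    intro h
    have h1 := congrArg Fin.val h
    change (q : ℕ) = N - 1 at h1
    omega
  ext i j
  rw [Matrix.sub_apply, Matrix.sub_apply, one_apply, diagonal_apply, diagonal_apply, diagonal_apply]
  by_cases hij : i = j
  · subst hij
    simp only [if_true]
    by_cases h1 : i = q
    · subst h1
      simp [hne]
    · by_cases h2 : i = lst hN
      · simp [h2, hne.symm]
      · simp [h1, h2]
  · simp [hij]

/-- the last column -/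
theorem last_col (hN : 5 ≤ N) {x : (sr q).M} (hx : x ∈ HQ hN q) : (1 - E2 q) * (sr q).mt x * E2 q = 0 := by
  have h1 : (sr q).mt x = JJ N * ((sr q).mt x⁻¹)ᴴ * JJ N := by
    rw [← mt_th hN, (mem_MJ' hN q).1 hx.1]
  have h2 : Ef q * (sr q).mt x⁻¹ * Ee q = 0 := ((sr q).Qh.inv_mem hx.2)
  have h3 : Ee q * ((sr q).mt x⁻¹)ᴴ * Ef q = 0 := by
    have h4 := congrArg conjTranspose h2
    rwa [conjTranspose_mul, conjTranspose_mul, Ef_star, Ee_star, conjTranspose_zero, ← Matrix.mul_assoc] at h4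
  rw [h1]
  have h4 : (1 - E2 q) * JJ N = JJ N * Ee q := by rw [Matrix.sub_mul, Matrix.one_mul, E2_JJ hN, Ee_eq, Matrix.mul_sub, Matrix.mul_one]
  calc (1 - E2 q) * (JJ N * ((sr q).mt x⁻¹)ᴴ * JJ N) * E2 q = (1 - E2 q) * JJ N * ((sr q).mt x⁻¹)ᴴ * (JJ N * E2 q) := by
        simp only [Matrix.mul_assoc]
    _ = JJ N * (Ee q * ((sr q).mt x⁻¹)ᴴ * Ef q) * JJ N := by
        rw [h4, JJ_E2 hN]
        simp only [Matrix.mul_assoc]
    _ = 0 := by rw [h3, Matrix.mul_zero, Matrix.zero_mul]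

/-- The elements with a scalar middle block are lower triangular. -/
theorem lt_of_mid (hN : 5 ≤ N) (hq : (q : ℕ) = 0) {x : (sr q).M} (hx : x ∈ HQ hN q) {c : ℂ}
    (hc : Em q * (sr q).mt x * Em q = c • Em q) : Lt ((sr q).mt x) := by
  obtain ⟨A, hA⟩ : ∃ A : MN N, A = (sr q).mt x := ⟨_, rfl⟩
  have l0 := lb_iff.1 hx.2
  have l2 := last_col hN hx
  rw [← hA] at hc l0 l2 ⊢
  intro i j hij
  by_cases hi : i = q
  · exact l0 i j hi.le (by rw [← hi]; exact hij)
  have hi' : i ≠ lst hN := by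
    intro h
    have h1 : (i : ℕ) = N - 1 := congrArg Fin.val h
    have h2 : (i : ℕ) < j := hij
    have h3 := j.2
    omega
  have hj : j ≠ q := by
    intro h
    have h1 : (j : ℕ) = 0 := by rw [h, hq]
    have h2 : (i : ℕ) < j := hij
    omega
  by_cases hj' : j = lst hN
  · have h5 := congrFun (congrFun l2 i) j
    rw [Pool.Agent.Helper46.OB.E2_eq hN hq, Matrix.mul_diagonal, if_pos hj', mul_one, Matrix.sub_mul, Matrix.one_mul, Matrix.sub_apply,
      Matrix.diagonal_mul, if_neg hi', zero_mul, sub_zero] at h5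
    exact h5
  · have h5 := congrFun (congrFun hc i) j
    rw [Em_diag hN hq, Matrix.mul_diagonal, Matrix.diagonal_mul, if_neg (not_or.2 ⟨hi, hi'⟩), if_neg (not_or.2 ⟨hj, hj'⟩), one_mul, mul_one,
      Matrix.smul_apply, diagonal_apply_ne _ hij.ne, smul_zero] at h5
    exact h5

end Mid

end Pool.Agent.Helper84.OB
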