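import Pool.Agent.Helper78.BM.Phi

/-!
# Project OB (MP_0f6f3f_an), layer S1: rows and columns of multiplication operators
-/

set_option autoImplicit false
set_option linter.unusedSectionVars false

open MeasureTheory Filter Topology

namespace Pool.Agent.Helper84.OB

open Pool.Agent.Helper84 Pool.Agent.Helper84.GN Pool.Agent.Helper84.GN.S3 Pool.Agent.Helper84.GN.S3.X
open Pool.Agent.Helper84.NI Pool.Agent.Helper84.GVN Pool.Agent.Helper90.RK Pool.Agent.Helper78.BM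
open Pool.Agent.Helper96.RK Pool.Agent.Helper66.FR Pool.Agent.Helper84.FR Pool.Agent.Helper55.FR

variable {X G : Type} [MeasurableSpace X] [Group G] {μ : Measure X} {R R' : Reg G}

theorem Mf_sum {ι : Type} (s : Finset ι) (f : ι → G → ℂ) {C : ℝ} (hC : ∀ i γ, ‖f i γ‖ ≤ C) (x : XUa μ R) :
    Mf μ R (fun γ => ∑ i ∈ s, f i γ) x = ∑ i ∈ s, Mf μ R (f i) x := by
  classical
  induction s using Finset.induction_on with
  | empty =>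
    simp only [Finset.sum_empty]
    rw [Mf_const, zero_smul]
  | insert i s hi ih =>
    rw [Finset.sum_insert hi, ← ih]
    have h1 : (fun γ => ∑ j ∈ insert i s, f j γ) = fun γ => f i γ + ∑ j ∈ s, f j γ := by
      funext γ
      rw [Finset.sum_insert hi]
    rw [h1, Mf_add (C := C) (D := s.card * C) (hC i) fun γ => by
      refine (norm_sum_le _ _).trans ((Finset.sum_le_sum fun j _ => hC j γ).trans ?_)
      simp]

theorem sum_norm_Mf_le {ι : Type} (s : Finset ι) (f : ι → G → ℂ) {C D : ℝ} (hC : ∀ i γ, ‖f i γ‖ ≤ C)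
    (hD : ∀ γ, ∑ i ∈ s, ‖f i γ‖ ^ 2 ≤ D) (x : XUa μ R) : ∑ i ∈ s, ‖Mf μ R (f i) x‖ ^ 2 ≤ D * ‖x‖ ^ 2 := by
  have hC' : ∀ i γ, ‖(starRingEnd ℂ) (f i γ)‖ ≤ C := fun i γ => by
    rw [RCLike.norm_conj]
    exact hC i γ
  have hC2 : ∀ i γ, ‖(starRingEnd ℂ) (f i γ) * f i γ‖ ≤ C * C := fun i γ => by
    rw [norm_mul]
    exact mul_le_mul (hC' i γ) (hC i γ) (norm_nonneg _) ((norm_nonneg _).trans (hC' i γ))
  have h1 : ∀ i ∈ s, ((‖Mf μ R (f i) x‖ ^ 2 : ℝ) : ℂ) =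
      inner ℂ x (Mf μ R (fun γ => (starRingEnd ℂ) (f i γ) * f i γ) x) := by
    intro i _
    have h2 : ((‖Mf μ R (f i) x‖ ^ 2 : ℝ) : ℂ) = inner ℂ (Mf μ R (f i) x) (Mf μ R (f i) x) := by
      rw [inner_self_eq_norm_sq_to_K]
      norm_cast
    rw [h2, Mf_adj (hC i), Mf_mul (hC' i) (hC i)]
  have h3 : ((∑ i ∈ s, ‖Mf μ R (f i) x‖ ^ 2 : ℝ) : ℂ) =
      inner ℂ x (Mf μ R (fun γ => ∑ i ∈ s, (starRingEnd ℂ) (f i γ) * f i γ) x) := by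
    rw [Mf_sum s _ hC2, inner_sum, Complex.ofReal_sum]
    exact Finset.sum_congr rfl h1
  have h4 : ∀ γ, ‖∑ i ∈ s, (starRingEnd ℂ) (f i γ) * f i γ‖ ≤ D := by
    intro γ
    refine (norm_sum_le _ _).trans (le_trans (le_of_eq ?_) (hD γ))
    refine Finset.sum_congr rfl fun i _ => ?_
    rw [norm_mul, RCLike.norm_conj]
    ring
  have h5 : ‖((∑ i ∈ s, ‖Mf μ R (f i) x‖ ^ 2 : ℝ) : ℂ)‖ ≤ ‖x‖ * (D * ‖x‖) := by
    rw [h3]
    exact (norm_inner_le_norm _ _).trans (mul_le_mul_of_nonneg_left (norm_Mf_le h4 x) (norm_nonneg _))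
  rw [Complex.norm_real, Real.norm_eq_abs, abs_of_nonneg (Finset.sum_nonneg fun _ _ => by positivity)] at h5
  nlinarith

/-- **The row-column estimate.** -/
theorem norm_sum_row_le {ι : Type} (s : Finset ι) (g h : ι → G → ℂ) {C a b : ℝ} (hg : ∀ i γ, ‖g i γ‖ ≤ C)
    (hh : ∀ i γ, ‖h i γ‖ ≤ C) (ha : ∀ γ, ∑ i ∈ s, ‖g i γ‖ ^ 2 ≤ a) (hb : ∀ γ, ∑ i ∈ s, ‖h i γ‖ ^ 2 ≤ b)
    (Z : XUa μ R' →L[ℂ] XUa μ R) (x : XUa μ R') :
    ‖∑ i ∈ s, Mf μ R (g i) (Z (Mf μ R' (h i) x))‖ ≤ Real.sqrt a * ‖Z‖ * Real.sqrt b * ‖x‖ := by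
  obtain ⟨y, hy⟩ : ∃ y, y = ∑ i ∈ s, Mf μ R (g i) (Z (Mf μ R' (h i) x)) := ⟨_, rfl⟩
  rw [← hy]
  have hg' : ∀ i γ, ‖(starRingEnd ℂ) (g i γ)‖ ≤ C := fun i γ => by
    rw [RCLike.norm_conj]
    exact hg i γ
  have ha0 : 0 ≤ a := (Finset.sum_nonneg fun _ _ => by positivity).trans (ha 1)
  have hb0 : 0 ≤ b := (Finset.sum_nonneg fun _ _ => by positivity).trans (hb 1)
  have h1 : inner ℂ y y = ∑ i ∈ s, inner ℂ (Mf μ R (fun γ => (starRingEnd ℂ) (g i γ)) y) (Z (Mf μ R' (h i) x)) := by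
    have h2 : inner ℂ y y = inner ℂ y (∑ i ∈ s, Mf μ R (g i) (Z (Mf μ R' (h i) x))) := by rw [← hy]
    rw [h2, inner_sum]
    refine Finset.sum_congr rfl fun i _ => ?_
    rw [Mf_adj (hg' i)]
    simp only [Complex.conj_conj]
  have h3 : ‖y‖ ^ 2 ≤ ∑ i ∈ s, ‖Mf μ R (fun γ => (starRingEnd ℂ) (g i γ)) y‖ * (‖Z‖ * ‖Mf μ R' (h i) x‖) := by
    have h4 : ‖(inner ℂ y y : ℂ)‖ = ‖y‖ ^ 2 := by
      rw [inner_self_eq_norm_sq_to_K, norm_pow]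
      simp
    rw [← h4, h1]
    refine (norm_sum_le _ _).trans (Finset.sum_le_sum fun i _ => ?_)
    exact (norm_inner_le_norm _ _).trans (mul_le_mul_of_nonneg_left (Z.le_opNorm _) (norm_nonneg _))
  have h5 := Finset.sum_mul_sq_le_sq_mul_sq s (fun i => ‖Mf μ R (fun γ => (starRingEnd ℂ) (g i γ)) y‖)
    (fun i => ‖Mf μ R' (h i) x‖)
  have h6 : ∑ i ∈ s, ‖Mf μ R (fun γ => (starRingEnd ℂ) (g i γ)) y‖ ^ 2 ≤ a * ‖y‖ ^ 2 :=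
    sum_norm_Mf_le s _ hg' (fun γ => by simpa only [RCLike.norm_conj] using ha γ) y
  have h7 : ∑ i ∈ s, ‖Mf μ R' (h i) x‖ ^ 2 ≤ b * ‖x‖ ^ 2 := sum_norm_Mf_le s _ hh hb x
  have h8 : ∑ i ∈ s, ‖Mf μ R (fun γ => (starRingEnd ℂ) (g i γ)) y‖ * ‖Mf μ R' (h i) x‖ ≤
      Real.sqrt a * ‖y‖ * (Real.sqrt b * ‖x‖) := by
    refine abs_le_of_sq_le_sq' ?_ (by positivity) |>.2
    refine h5.trans ?_
    have h9 : (Real.sqrt a * ‖y‖ * (Real.sqrt b * ‖x‖)) ^ 2 = (a * ‖y‖ ^ 2) * (b * ‖x‖ ^ 2) := by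
      rw [mul_pow, mul_pow, mul_pow, Real.sq_sqrt ha0, Real.sq_sqrt hb0]
    rw [h9]
    exact mul_le_mul h6 h7 (Finset.sum_nonneg fun _ _ => by positivity) (by positivity)
  have h10 : ‖y‖ ^ 2 ≤ (Real.sqrt a * ‖Z‖ * Real.sqrt b * ‖x‖) * ‖y‖ := by
    calc ‖y‖ ^ 2 ≤ ∑ i ∈ s, ‖Mf μ R (fun γ => (starRingEnd ℂ) (g i γ)) y‖ * (‖Z‖ * ‖Mf μ R' (h i) x‖) := h3
      _ = ‖Z‖ * ∑ i ∈ s, ‖Mf μ R (fun γ => (starRingEnd ℂ) (g i γ)) y‖ * ‖Mf μ R' (h i) x‖ := by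
          rw [Finset.mul_sum]
          exact Finset.sum_congr rfl fun i _ => by ring
      _ ≤ ‖Z‖ * (Real.sqrt a * ‖y‖ * (Real.sqrt b * ‖x‖)) := mul_le_mul_of_nonneg_left h8 Z.opNorm_nonneg
      _ = _ := by ring
  by_cases h0 : ‖y‖ = 0
  · rw [h0]
    positivity
  · have h11 : 0 < ‖y‖ := lt_of_le_of_ne (norm_nonneg _) (Ne.symm h0)
    nlinarith

end Pool.Agent.Helper84.OB
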