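import Pool.Agent.Helper78.BM.Phi

/-!
# Project OB (MP_0f6f3f_an, target `so(2, n)`), layer S1: definitions

`fl S k γ`: the projection on the span of the first `k` right singular vectors of `γ`: `fl S 1` is the point, `fl S 2` the line of `γ`.
`NonInc S A B`: the points of the elements of `A` stay away from the lines of the elements of `B`.
-/

set_option autoImplicit false
set_option linter.unusedSectionVars false

open Filter Topology Matrix

namespace Pool.Agent.Helper84.OB

open Pool.Agent.Helper84 Pool.Agent.Helper84.GN Pool.Agent.Helper84.NI Pool.Agent.Helper90.RK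

variable {G : Type} [Group G] {N : ℕ} {P : PH G N}

/-- The projection on the span of the first `k` right singular vectors. -/
noncomputable def fl (S : Sv P) (k : ℕ) (γ : G) : MN N :=
  S.kR γ * diagonal (fun i : Fin N => if (i : ℕ) < k then (1 : ℂ) else 0) * (S.kR γ)ᴴ

/-- The points of the elements of `A` are not on the lines of the elements of `B`, with a margin. -/
def NonInc (S : Sv P) (A B : Set G) : Prop :=
  ∃ δ : ℝ, 0 < δ ∧ ∀ γ ∈ A, ∀ γ' ∈ B, δ ≤ ns (fl S 1 γ * (1 - fl S 2 γ'))

end Pool.Agent.Helper84.OB
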