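import Pool.Agent.Helper9.FP.Siz
import Pool.Agent.Helper43.TZ.SFam

/-!
# Project OB (MP_0f6f3f_an): the size function of a closed group of matrices

`𝕊` a locally compact group with a closed embedding `j` in `GL(M, ℝ)` such that the elements near `1` are the `exp X`, `X` small in a space `W` of matrices. Then `2 ‖j g - 1‖` is a size function of dimension `dim W`.
-/

set_option autoImplicit false
set_option linter.unusedSectionVars false

open Filter Topology MeasureTheory Matrix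
open scoped ENNReal

namespace Pool.Agent.Helper84.OB

open Pool.Agent.Helper96.SA
open Pool.Agent.Helper43.TZ (Siz exp_est)
open scoped Matrix.Norms.Operator

variable {M : ℕ} {𝕊 : Type} [Group 𝕊] [TopologicalSpace 𝕊] (j : 𝕊 →* GL (Fin M) ℝ)

/-- The size function. -/
noncomputable def rj (g : 𝕊) : ℝ := 2 * ‖((j g : GL (Fin M) ℝ) : Mat M) - 1‖

theorem rj_nonneg (g : 𝕊) : 0 ≤ rj j g := by
  unfold rj
  positivity

theorem rj_one : rj j 1 = 0 := by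
  unfold rj
  rw [map_one, Units.val_one, sub_self, norm_zero, mul_zero]

theorem rj_mul (g h : 𝕊) : rj j (g * h) ≤ rj j g + rj j h + rj j g * rj j h := by
  unfold rj
  rw [map_mul, Units.val_mul]
  set A := ((j g : GL (Fin M) ℝ) : Mat M)
  set B := ((j h : GL (Fin M) ℝ) : Mat M)
  have h1 : A * B - 1 = (A - 1) + (B - 1) + (A - 1) * (B - 1) := by noncomm_ring
  have h2 : ‖A * B - 1‖ ≤ ‖A - 1‖ + ‖B - 1‖ + ‖A - 1‖ * ‖B - 1‖ := by
    rw [h1]
    exact (norm_add₃_le).trans (add_le_add le_rfl (norm_mul_le _ _))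
  have h3 : 0 ≤ ‖A - 1‖ * ‖B - 1‖ := by positivity
  nlinarith

theorem rj_inv (g : 𝕊) (hg : rj j g ≤ 1 / 2) : rj j g⁻¹ ≤ 2 * rj j g := by
  unfold rj at hg ⊢
  set A := ((j g : GL (Fin M) ℝ) : Mat M) with hA
  have e : ((j g⁻¹ : GL (Fin M) ℝ) : Mat M) * A = 1 := by
    rw [hA, ← Units.val_mul, ← map_mul, inv_mul_cancel, map_one, Units.val_one]
  set B := ((j g⁻¹ : GL (Fin M) ℝ) : Mat M) with hB
  have h1 : B - 1 = -((A - 1) + (B - 1) * (A - 1)) := by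
    have : (B - 1) * (A - 1) = B * A - A - B + 1 := by noncomm_ring
    rw [this, e]
    abel
  have h2 : ‖B - 1‖ ≤ ‖A - 1‖ + ‖B - 1‖ * ‖A - 1‖ := by
    calc ‖B - 1‖ = ‖(A - 1) + (B - 1) * (A - 1)‖ := by
          conv_lhs => rw [h1, norm_neg]
      _ ≤ _ := (norm_add_le _ _).trans (add_le_add le_rfl (norm_mul_le _ _))
  have h3 := norm_nonneg (B - 1)
  nlinarith

variable {j} {W : Submodule ℝ (Mat M)}

theorem continuous_val_j (hj : IsClosedEmbedding j) : Continuous fun g : 𝕊 => ((j g : GL (Fin M) ℝ) : Mat M) :=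
  Units.continuous_val.comp hj.continuous

theorem continuous_rj (hj : IsClosedEmbedding j) : Continuous (rj j) := by
  unfold rj
  exact continuous_const.mul ((continuous_val_j hj).sub continuous_const).norm

theorem isCompact_rj (hj : IsClosedEmbedding j) : IsCompact {g : 𝕊 | rj j g ≤ 1} := by
  have hc : CompleteSpace (Mat M) := inferInstance
  have hprop : ProperSpace (Mat M) := FiniteDimensional.proper ℝ (Mat M)
  have hK2 : IsCompact (Metric.closedBall (1 : Mat M) (1 / 2)) := isCompact_closedBall _ _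
  have hK2' : Metric.closedBall (1 : Mat M) (1 / 2) ⊆ Set.range (fun g : GL (Fin M) ℝ => (g : Mat M)) := by
    intro A hA
    rw [mem_closedBall_iff_norm] at hA
    have h1 : ‖1 - A‖ < 1 := by
      rw [norm_sub_rev]
      linarith
    refine ⟨Units.oneSub (1 - A) h1, ?_⟩
    show 1 - (1 - A) = A
    abel
  have h3 : IsCompact ((fun g : GL (Fin M) ℝ => (g : Mat M)) ⁻¹' Metric.closedBall (1 : Mat M) (1 / 2)) :=
    (isEmbedding_val.isInducing.isCompact_preimage_iff hK2').2 hK2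
  have h4 := hj.isCompact_preimage h3
  have h5 : {g : 𝕊 | rj j g ≤ 1} = j ⁻¹' ((fun g : GL (Fin M) ℝ => (g : Mat M)) ⁻¹' Metric.closedBall (1 : Mat M) (1 / 2)) := by
    ext g
    show 2 * ‖((j g : GL (Fin M) ℝ) : Mat M) - 1‖ ≤ 1 ↔ ((j g : GL (Fin M) ℝ) : Mat M) ∈ Metric.closedBall (1 : Mat M) (1 / 2)
    rw [mem_closedBall_iff_norm]
    constructor <;> intro h <;> linarith
  rw [h5]
  exact h4

theorem rj_basis (hj : IsClosedEmbedding j) (U : Set 𝕊) (hU : U ∈ 𝓝 (1 : 𝕊)) : ∃ r : ℝ, 0 < r ∧ ∀ g, rj j g < r → g ∈ U := by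
  have h1 : IsInducing fun g : 𝕊 => ((j g : GL (Fin M) ℝ) : Mat M) := (isEmbedding_val.comp hj.isEmbedding).isInducing
  rw [h1.nhds_eq_comap, Filter.mem_comap] at hU
  obtain ⟨V, hV, hVU⟩ := hU
  rw [map_one, Units.val_one] at hV
  obtain ⟨ε, hε, hεV⟩ := Metric.mem_nhds_iff.1 hV
  refine ⟨2 * ε, by positivity, fun g hg => hVU (hεV ?_)⟩
  rw [mem_ball_iff_norm]
  unfold rj at hg
  linarith

/-- The points near `1` are exponentials. -/
def Chart (j : 𝕊 →* GL (Fin M) ℝ) (W : Submodule ℝ (Mat M)) : Prop :=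
  ∀ r : ℝ, 0 < r → ∀ᶠ g in 𝓝 (1 : 𝕊), ∃ X ∈ W, ‖X‖ ≤ r ∧ ((j g : GL (Fin M) ℝ) : Mat M) = NormedSpace.exp X

theorem exp_est2 : ∃ r : ℝ, 0 < r ∧ ∀ X Y : Mat M, ‖X‖ ≤ r → ‖Y‖ ≤ r → ‖NormedSpace.exp X * NormedSpace.exp (-Y) - 1‖ ≤ 2 * ‖X - Y‖ := by
  obtain ⟨r, hr, h⟩ := exp_est (M := M) one_pos le_rfl
  refine ⟨r, hr, fun X Y hX hY => ?_⟩
  have h1 := h (-Y) (-X) (by rwa [norm_neg]) (by rwa [norm_neg])
  rw [neg_neg] at h1
  have e : -Y - -X = X - Y := by abel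
  rw [e, one_mul] at h1
  calc ‖NormedSpace.exp X * NormedSpace.exp (-Y) - 1‖
      = ‖(NormedSpace.exp X * NormedSpace.exp (-Y) - 1 - (X - Y)) + (X - Y)‖ := by rw [sub_add_cancel]
    _ ≤ ‖X - Y‖ + ‖X - Y‖ := (norm_add_le _ _).trans (add_le_add h1 le_rfl)
    _ = _ := by ring

/-- Finite nets of a ball of `W`, in the form of a map to cells. -/
theorem exists_cells (W : Submodule ℝ (Mat M)) {r : ℝ} (hr : 0 < r) : ∃ C : ℝ, 0 < C ∧ ∀ δ : ℝ, 0 < δ → δ ≤ 1 →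
    ∃ (q : ℕ) (c : Mat M → (Fin (Module.finrank ℝ W) → Fin (q + 1))), ((q : ℝ) + 1) * δ ≤ C ∧
      ∀ X ∈ W, ∀ Y ∈ W, ‖X‖ ≤ r → ‖Y‖ ≤ r → c X = c Y → ‖X - Y‖ ≤ δ := by
  classical
  have hprop : ProperSpace W := FiniteDimensional.proper ℝ W
  set d := Module.finrank ℝ W with hd
  let e := Module.finBasis ℝ W
  set K : ℝ := ∑ l, ‖e l‖ + 1 with hK
  have hKp : 0 < K := by positivity
  let T : W →ₗ[ℝ] (Fin d → ℝ) := (e.equivFun : W →ₗ[ℝ] (Fin d → ℝ))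
  obtain ⟨C0, hC0p, hTb⟩ : ∃ C0 : ℝ, 0 < C0 ∧ ∀ w : W, ‖T w‖ ≤ C0 * ‖w‖ := (LinearMap.toContinuousLinearMap T).bound
  have hcoord : ∀ (w : W) (l : Fin d), |e.repr w l| ≤ C0 * ‖w‖ := by
    intro w l
    have h1 : ‖(T w) l‖ ≤ ‖T w‖ := norm_le_pi_norm _ l
    have h3 : (T w) l = e.repr w l := rfl
    rw [h3, Real.norm_eq_abs] at h1
    exact h1.trans (hTb w)
  refine ⟨2 * C0 * r * K + 1, by positivity, fun δ hδ hδ1 => ?_⟩
  set η : ℝ := δ / K with hη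
  have hηp : 0 < η := by positivity
  set q : ℕ := ⌊2 * C0 * r / η⌋₊ with hq
  let cl : W → Fin d → Fin (q + 1) := fun w l => ⟨min ⌊(e.repr w l + C0 * r) / η⌋₊ q, by omega⟩
  refine ⟨q, fun X => if hX : X ∈ W then cl ⟨X, hX⟩ else 0, ?_, fun X hX Y hY hXr hYr hXY => ?_⟩
  · have h1 : (q : ℝ) ≤ 2 * C0 * r / η := Nat.floor_le (by positivity)
    have h2 : 2 * C0 * r / η * δ = 2 * C0 * r * K := by
      rw [hη]
      field_simp
    nlinarith [mul_le_mul_of_nonneg_right h1 hδ.le]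
  · have hXY' : cl ⟨X, hX⟩ = cl ⟨Y, hY⟩ := by
      have := hXY
      simp only [dif_pos hX, dif_pos hY] at this
      exact this
    have key : ∀ Z : W, ‖Z‖ ≤ r → ∀ l, 0 ≤ (e.repr Z l + C0 * r) / η ∧ ⌊(e.repr Z l + C0 * r) / η⌋₊ ≤ q := by
      intro Z hZ l
      have h1 := hcoord Z l
      have h2 : C0 * ‖Z‖ ≤ C0 * r := mul_le_mul_of_nonneg_left hZ hC0p.le
      have h3 := abs_le.1 (h1.trans h2)
      refine ⟨div_nonneg (by linarith) hηp.le, Nat.floor_le_floor (div_le_div_of_nonneg_right (by linarith) hηp.le)⟩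
    have hl : ∀ l, |e.repr (⟨X, hX⟩ - ⟨Y, hY⟩ : W) l| ≤ η := by
      intro l
      obtain ⟨a1, a2⟩ := key ⟨X, hX⟩ hXr l
      obtain ⟨b1, b2⟩ := key ⟨Y, hY⟩ hYr l
      have h1 : ⌊(e.repr ⟨X, hX⟩ l + C0 * r) / η⌋₊ = ⌊(e.repr ⟨Y, hY⟩ l + C0 * r) / η⌋₊ := by
        have h2 := congrArg Fin.val (congrFun hXY' l)
        change min _ q = min _ q at h2
        rwa [min_eq_left a2, min_eq_left b2] at h2
      have x1 := Nat.floor_le a1
      have x2 := Nat.lt_floor_add_one ((e.repr ⟨X, hX⟩ l + C0 * r) / η)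
      have y1 := Nat.floor_le b1
      have y2 := Nat.lt_floor_add_one ((e.repr ⟨Y, hY⟩ l + C0 * r) / η)
      rw [← h1] at y1 y2
      have e1 : e.repr (⟨X, hX⟩ - ⟨Y, hY⟩ : W) l = ((e.repr ⟨X, hX⟩ l + C0 * r) / η - (e.repr ⟨Y, hY⟩ l + C0 * r) / η) * η := by
        rw [← sub_div, div_mul_cancel₀ _ hηp.ne', map_sub, Finsupp.sub_apply]
        ring
      rw [e1, abs_mul, abs_of_pos hηp]
      have h3 : |(e.repr ⟨X, hX⟩ l + C0 * r) / η - (e.repr ⟨Y, hY⟩ l + C0 * r) / η| ≤ 1 := by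
        rw [abs_le]
        constructor <;> linarith
      calc _ ≤ 1 * η := mul_le_mul_of_nonneg_right h3 hηp.le
        _ = η := one_mul η
    have h2 : X - Y = (((⟨X, hX⟩ - ⟨Y, hY⟩ : W)) : Mat M) := rfl
    have h3 : (⟨X, hX⟩ - ⟨Y, hY⟩ : W) = ∑ l, e.repr (⟨X, hX⟩ - ⟨Y, hY⟩ : W) l • e l := (e.sum_repr _).symm
    rw [h2]
    change ‖(⟨X, hX⟩ - ⟨Y, hY⟩ : W)‖ ≤ δ
    rw [h3]
    calc ‖∑ l, e.repr (⟨X, hX⟩ - ⟨Y, hY⟩ : W) l • e l‖ ≤ ∑ l, ‖e.repr (⟨X, hX⟩ - ⟨Y, hY⟩ : W) l • e l‖ := norm_sum_le _ _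
      _ ≤ ∑ l, η * ‖e l‖ := by
        refine Finset.sum_le_sum fun l _ => ?_
        rw [norm_smul, Real.norm_eq_abs]
        exact mul_le_mul_of_nonneg_right (hl l) (norm_nonneg _)
      _ = η * ∑ l, ‖e l‖ := by rw [Finset.mul_sum]
      _ ≤ η * K := mul_le_mul_of_nonneg_left (by rw [hK]; linarith) hηp.le
      _ = δ := by
        rw [hη]
        field_simp

variable [IsTopologicalGroup 𝕊]

theorem exists_netJ (hch : Chart j W) (B : Set 𝕊) (hB : IsCompact B) : ∃ C : ℝ, 0 < C ∧ ∀ δ : ℝ, 0 < δ → δ ≤ 1 →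
    ∃ P : Finset 𝕊, (P.card : ℝ) * δ ^ (Module.finrank ℝ W) ≤ C ∧ ∀ h ∈ B, ∃ k ∈ P, rj j (h * k⁻¹) ≤ δ := by
  classical
  set d := Module.finrank ℝ W with hd
  obtain ⟨r, hr, hexp⟩ := exp_est2 (M := M)
  obtain ⟨C, hC, hcell⟩ := exists_cells W hr
  have hU := hch r hr
  obtain ⟨T, hT, hTB⟩ := hB.elim_nhds_subcover (fun x => {g | ∃ X ∈ W, ‖X‖ ≤ r ∧ ((j (g * x⁻¹) : GL (Fin M) ℝ) : Mat M) = NormedSpace.exp X}) (by
    intro x _
    have h1 : Tendsto (fun g : 𝕊 => g * x⁻¹) (𝓝 x) (𝓝 1) := by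
      have := (continuous_mul_const x⁻¹).tendsto x
      rwa [mul_inv_cancel] at this
    exact h1 hU)
  refine ⟨T.card * (4 * C) ^ d + 1, by positivity, fun δ hδ hδ1 => ?_⟩
  obtain ⟨q, c, hq, hc⟩ := hcell (δ / 4) (by positivity) (by linarith)
  let Q : 𝕊 × (Fin d → Fin (q + 1)) → 𝕊 := fun p =>
    if h : ∃ g : 𝕊, ∃ X ∈ W, ‖X‖ ≤ r ∧ ((j (g * p.1⁻¹) : GL (Fin M) ℝ) : Mat M) = NormedSpace.exp X ∧ c X = p.2 then h.choose else 1
  refine ⟨(T ×ˢ Finset.univ).image Q, ?_, fun h hh => ?_⟩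
  · have h1 : (((T ×ˢ (Finset.univ : Finset (Fin d → Fin (q + 1)))).image Q).card : ℝ) ≤ T.card * ((q : ℝ) + 1) ^ d := by
      have h2 := Finset.card_image_le (s := T ×ˢ (Finset.univ : Finset (Fin d → Fin (q + 1)))) (f := Q)
      rw [Finset.card_product, Finset.card_univ, Fintype.card_fun, Fintype.card_fin, Fintype.card_fin] at h2
      exact_mod_cast h2
    have hq' : ((q : ℝ) + 1) * δ ≤ 4 * C := by linarith
    calc _ ≤ T.card * ((q : ℝ) + 1) ^ d * δ ^ d := mul_le_mul_of_nonneg_right h1 (by positivity)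
      _ = T.card * (((q : ℝ) + 1) * δ) ^ d := by rw [mul_assoc, mul_pow]
      _ ≤ T.card * (4 * C) ^ d := by gcongr
      _ ≤ _ := by linarith
  · obtain ⟨t, ht⟩ := Set.mem_iUnion.1 (hTB hh)
    obtain ⟨htT, X, hXW, hXr, hXe⟩ := Set.mem_iUnion.1 ht
    have hex : ∃ g : 𝕊, ∃ X' ∈ W, ‖X'‖ ≤ r ∧ ((j (g * (t, c X).1⁻¹) : GL (Fin M) ℝ) : Mat M) = NormedSpace.exp X' ∧ c X' = (t, c X).2 :=
      ⟨h, X, hXW, hXr, hXe, rfl⟩
    have hQ : Q (t, c X) = hex.choose := dif_pos hex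
    refine ⟨Q (t, c X), Finset.mem_image_of_mem _ (Finset.mem_product.2 ⟨htT, Finset.mem_univ _⟩), ?_⟩
    obtain ⟨Y, hYW, hYr, hYe, hYc⟩ := hex.choose_spec
    rw [hQ]
    set k := hex.choose with hk
    have h1 : h * k⁻¹ = (h * t⁻¹) * (k * t⁻¹)⁻¹ := by group
    have h2 : ((j (h * k⁻¹) : GL (Fin M) ℝ) : Mat M) = NormedSpace.exp X * NormedSpace.exp (-Y) := by
      rw [h1, map_mul, Units.val_mul, hXe, map_inv]
      congr 1
      have h3 : j (k * t⁻¹) = ex Y := Units.ext hYe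
      rw [h3, ← ex_neg, ex_coe]
    unfold rj
    rw [h2]
    have h4 := hexp X Y hXr hYr
    have h5 := hc X hXW Y hYW hXr hYr hYc.symm
    linarith

section Net

variable [LocallyCompactSpace 𝕊] [SecondCountableTopology 𝕊] [T2Space 𝕊] [MeasurableSpace 𝕊] [BorelSpace 𝕊]

/-- **A size function from nets.** -/
theorem siz_of_net (ρ : 𝕊 → ℝ) (cont : Continuous ρ) (nonneg : ∀ g, 0 ≤ ρ g) (one : ρ 1 = 0)
    (mul : ∀ g h, ρ (g * h) ≤ ρ g + ρ h + ρ g * ρ h) (inv : ∀ g, ρ g ≤ 1 / 2 → ρ g⁻¹ ≤ 2 * ρ g)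
    (basis : ∀ U ∈ 𝓝 (1 : 𝕊), ∃ r : ℝ, 0 < r ∧ ∀ g, ρ g < r → g ∈ U) (cpt : IsCompact {g | ρ g ≤ 1}) (d : ℕ)
    (net : ∀ B : Set 𝕊, IsCompact B → ∃ C : ℝ, 0 < C ∧ ∀ δ : ℝ, 0 < δ → δ ≤ 1 →
      ∃ P : Finset 𝕊, (P.card : ℝ) * δ ^ d ≤ C ∧ ∀ h ∈ B, ∃ k ∈ P, ρ (h * k⁻¹) ≤ δ)
    (ν : Measure 𝕊) [ν.IsHaarMeasure] [ν.IsMulRightInvariant] : ∃ z : Siz 𝕊 ν, z.d = d ∧ z.ρ = ρ := by
  refine ⟨{
    ρ := ρ
    cont := cont
    nonneg := nonneg
    one := one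
    mul := mul
    inv := inv
    basis := basis
    d := d
    vol := ?_
    net := net
    bump := Pool.Agent.Helper9.Lin.exists_bump ν ρ cont nonneg one mul inv cpt }, rfl, rfl⟩
  obtain ⟨C, hC, hnet⟩ := net _ cpt
  have hm1 : 0 < ν {g : 𝕊 | ρ g ≤ 1} := by
    have h1 : {g : 𝕊 | ρ g < 1} ⊆ {g : 𝕊 | ρ g ≤ 1} := fun g (hg : ρ g < 1) => hg.le
    have h2 : IsOpen {g : 𝕊 | ρ g < 1} := isOpen_lt cont continuous_const
    have h3 : 0 < ν {g : 𝕊 | ρ g < 1} := h2.measure_pos ν ⟨1, by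
      show ρ 1 < 1
      rw [one]
      exact one_pos⟩
    exact h3.trans_le (measure_mono h1)
  have hm2 : ν {g : 𝕊 | ρ g ≤ 1} ≠ ⊤ := cpt.measure_lt_top.ne
  set m0 : ℝ := (ν {g : 𝕊 | ρ g ≤ 1}).toReal with hm0
  have hm0p : 0 < m0 := ENNReal.toReal_pos hm1.ne' hm2
  refine ⟨m0 / (C * 2 ^ d), by positivity, fun r hr hr1 => ?_⟩
  obtain ⟨P, hP, hP'⟩ := hnet (r / 2) (by positivity) (by linarith)
  have h1 : ν {g : 𝕊 | ρ g ≤ 1} ≤ P.card * ν {g : 𝕊 | ρ g < r} := by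
    calc ν {g : 𝕊 | ρ g ≤ 1} ≤ ν (⋃ k ∈ P, (fun g => g * k⁻¹) ⁻¹' {g : 𝕊 | ρ g < r}) := by
          refine measure_mono fun g hg => ?_
          obtain ⟨k, hk, hgk⟩ := hP' g hg
          refine Set.mem_biUnion hk ?_
          show ρ (g * k⁻¹) < r
          linarith
      _ ≤ ∑ k ∈ P, ν ((fun g => g * k⁻¹) ⁻¹' {g : 𝕊 | ρ g < r}) := measure_biUnion_finset_le _ _
      _ = ∑ k ∈ P, ν {g : 𝕊 | ρ g < r} := by
          refine Finset.sum_congr rfl fun k _ => ?_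
          exact measure_preimage_mul_right ν k⁻¹ _
      _ = _ := by rw [Finset.sum_const, nsmul_eq_mul]
  have hfin : ν {g : 𝕊 | ρ g < r} ≠ ⊤ := by
    refine ne_top_of_le_ne_top hm2 (measure_mono fun g (hg : ρ g < r) => ?_)
    exact hg.le.trans hr1
  set v : ℝ := (ν {g : 𝕊 | ρ g < r}).toReal with hv
  have h2 : m0 ≤ P.card * v := by
    have := ENNReal.toReal_mono (ENNReal.mul_ne_top (ENNReal.natCast_ne_top _) hfin) h1
    rwa [ENNReal.toReal_mul, ENNReal.toReal_natCast] at this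
  rw [← ENNReal.ofReal_toReal hfin]
  refine ENNReal.ofReal_le_ofReal ?_
  have hv0 : 0 ≤ v := ENNReal.toReal_nonneg
  have h3 : m0 * (r / 2) ^ d ≤ C * v := by
    calc m0 * (r / 2) ^ d ≤ P.card * v * (r / 2) ^ d := mul_le_mul_of_nonneg_right h2 (by positivity)
      _ = (P.card * (r / 2) ^ d) * v := by ring
      _ ≤ C * v := mul_le_mul_of_nonneg_right hP hv0
  rw [← hv]
  have h4 : m0 / (C * 2 ^ d) * r ^ d = m0 * (r / 2) ^ d / C := by
    rw [div_pow]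
    field_simp
  rw [h4, div_le_iff₀ hC]
  linarith

/-- **The size function of a closed group of matrices.** -/
theorem exists_siz (hj : IsClosedEmbedding j) (hch : Chart j W) (ν : Measure 𝕊) [ν.IsHaarMeasure] [ν.IsMulRightInvariant] :
    ∃ z : Siz 𝕊 ν, z.d = Module.finrank ℝ W ∧ z.ρ = rj j :=
  siz_of_net (rj j) (continuous_rj hj) (rj_nonneg j) (rj_one j) (rj_mul j) (rj_inv j) (rj_basis hj) (isCompact_rj hj) _
    (exists_netJ hch) ν

end Net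

section Quot

variable {𝕋 : Type} [Group 𝕋] [TopologicalSpace 𝕋] [IsTopologicalGroup 𝕋] (π : 𝕊 →* 𝕋)

/-- The size function of a quotient by a finite normal subgroup. -/
noncomputable def rqj (x : 𝕋) : ℝ := sInf (rj j '' (π ⁻¹' {x}))

variable {π} (hπs : Function.Surjective π) (hπf : (π.ker : Set 𝕊).Finite)

include hπs hπf

theorem rqj_min (x : 𝕋) : ∃ g : 𝕊, π g = x ∧ rj j g = rqj (j := j) π x ∧ ∀ h, π h = x → rqj (j := j) π x ≤ rj j h := by
  obtain ⟨g0, hg0⟩ := hπs x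
  have hf : (π ⁻¹' {x}).Finite := by
    have h1 : π ⁻¹' {x} = (fun k => g0 * k) '' (π.ker : Set 𝕊) := by
      ext h
      constructor
      · intro hh
        have hh' : π h = x := hh
        refine ⟨g0⁻¹ * h, ?_, by simp⟩
        show π (g0⁻¹ * h) = 1
        rw [map_mul, map_inv, hg0, hh', inv_mul_cancel]
      · rintro ⟨k, hk, rfl⟩
        have hk' : π k = 1 := hk
        show π (g0 * k) = x
        rw [map_mul, hk', mul_one, hg0]
    rw [h1]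
    exact hπf.image _
  have hne : (π ⁻¹' {x}).Nonempty := ⟨g0, hg0⟩
  have hf' : (rj j '' (π ⁻¹' {x})).Finite := hf.image _
  obtain ⟨g, hg, hgm⟩ := (hne.image (rj j)).csInf_mem hf'
  refine ⟨g, hg, hgm, fun h hh => ?_⟩
  exact csInf_le hf'.bddBelow ⟨h, hh, rfl⟩

theorem rqj_le (g : 𝕊) : rqj (j := j) π (π g) ≤ rj j g := by
  obtain ⟨h, -, -, h3⟩ := rqj_min (j := j) hπs hπf (π g)
  exact h3 g rfl

omit hπs in
theorem ker_ne : hπf.toFinset.Nonempty := ⟨1, hπf.mem_toFinset.2 π.ker.one_mem⟩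

theorem rqj_eq_inf (g : 𝕊) : rqj (j := j) π (π g) = hπf.toFinset.inf' (ker_ne hπf) (fun k => rj j (g * k)) := by
  obtain ⟨h, h1, h2, h3⟩ := rqj_min (j := j) hπs hπf (π g)
  apply le_antisymm
  · rw [Finset.le_inf'_iff]
    intro k hk
    have hk' : π k = 1 := by
      have := hπf.mem_toFinset.1 hk
      exact this
    exact h3 _ (by rw [map_mul, hk', mul_one])
  · rw [← h2]
    refine (Finset.inf'_le (fun k => rj j (g * k)) (b := g⁻¹ * h) ?_).trans (le_of_eq (by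
      show rj j (g * (g⁻¹ * h)) = rj j h
      rw [mul_inv_cancel_left]))
    rw [hπf.mem_toFinset]
    show π (g⁻¹ * h) = 1
    rw [map_mul, map_inv, h1, inv_mul_cancel]

theorem continuous_rqj (hj : IsClosedEmbedding j) (hπc : Continuous π) (hπo : IsOpenMap π) : Continuous (rqj (j := j) π) := by
  classical
  have hq : IsQuotientMap π := hπo.isQuotientMap hπc hπs
  rw [hq.continuous_iff]
  have h1 : rqj (j := j) π ∘ π = fun g => hπf.toFinset.inf' (ker_ne hπf) (fun k => rj j (g * k)) := by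
    funext g
    exact rqj_eq_inf hπs hπf g
  rw [h1]
  exact Continuous.finset_inf'_apply _ fun k _ => (continuous_rj hj).comp (continuous_mul_const k)

theorem isCompact_rqj (hj : IsClosedEmbedding j) (hπc : Continuous π) : IsCompact {x : 𝕋 | rqj (j := j) π x ≤ 1} := by
  have h1 : {x : 𝕋 | rqj (j := j) π x ≤ 1} = π '' {g | rj j g ≤ 1} := by
    ext x
    constructor
    · intro hx
      have hx' : rqj (j := j) π x ≤ 1 := hx
      obtain ⟨g, g1, g2, -⟩ := rqj_min (j := j) hπs hπf x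
      refine ⟨g, ?_, g1⟩
      show rj j g ≤ 1
      rw [g2]
      exact hx'
    · rintro ⟨g, hg, rfl⟩
      exact (rqj_le hπs hπf g).trans hg
  rw [h1]
  exact (isCompact_rj hj).image hπc

theorem exists_netQ [LocallyCompactSpace 𝕊] (hπo : IsOpenMap π) (hch : Chart j W) (B : Set 𝕋)
    (hB : IsCompact B) : ∃ C : ℝ, 0 < C ∧ ∀ δ : ℝ, 0 < δ → δ ≤ 1 →
    ∃ P : Finset 𝕋, (P.card : ℝ) * δ ^ (Module.finrank ℝ W) ≤ C ∧ ∀ h ∈ B, ∃ k ∈ P, rqj (j := j) π (h * k⁻¹) ≤ δ := by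
  classical
  -- a compact lift
  obtain ⟨B', hB', hBB⟩ : ∃ B' : Set 𝕊, IsCompact B' ∧ B ⊆ π '' B' := by
    obtain ⟨V, hV, hV1⟩ := exists_compact_mem_nhds (1 : 𝕊)
    obtain ⟨T, -, hT⟩ := hB.elim_nhds_subcover (fun x => (fun y => x * y) '' (π '' V)) (by
      intro x _
      have h1 : π '' V ∈ 𝓝 (1 : 𝕋) := by
        have := hπo.image_mem_nhds hV1
        rwa [map_one] at this
      have h2 := (Homeomorph.mulLeft x).isOpenMap.image_mem_nhds h1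
      have h3 : (Homeomorph.mulLeft x) 1 = x := by simp
      rw [h3] at h2
      exact h2)
    choose s hs using hπs
    refine ⟨⋃ x ∈ T, (fun y => s x * y) '' V, T.isCompact_biUnion fun x _ => hV.image (continuous_const_mul (s x)), fun y hy => ?_⟩
    obtain ⟨x, hx⟩ := Set.mem_iUnion.1 (hT hy)
    obtain ⟨hxT, _, ⟨v, hv, rfl⟩, hvy⟩ := Set.mem_iUnion.1 hx
    refine ⟨s x * v, Set.mem_biUnion hxT ⟨v, hv, rfl⟩, ?_⟩
    rw [map_mul, hs]
    exact hvy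
  obtain ⟨C, hC, hnet⟩ := exists_netJ hch B' hB'
  refine ⟨C, hC, fun δ hδ hδ1 => ?_⟩
  obtain ⟨P, hP, hP'⟩ := hnet δ hδ hδ1
  refine ⟨P.image π, ?_, fun h hh => ?_⟩
  · have h1 : ((P.image π).card : ℝ) ≤ P.card := by exact_mod_cast Finset.card_image_le
    exact (mul_le_mul_of_nonneg_right h1 (by positivity)).trans hP
  · obtain ⟨g, hg, rfl⟩ := hBB hh
    obtain ⟨k, hk, hgk⟩ := hP' g hg
    refine ⟨π k, Finset.mem_image_of_mem _ hk, ?_⟩
    rw [← map_inv, ← map_mul]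
    exact (rqj_le hπs hπf _).trans hgk

/-- **The size function of the quotient by a finite normal subgroup.** -/
theorem exists_sizQ [LocallyCompactSpace 𝕊] [LocallyCompactSpace 𝕋] [SecondCountableTopology 𝕋] [T2Space 𝕋] [MeasurableSpace 𝕋]
    [BorelSpace 𝕋] (hj : IsClosedEmbedding j) (hch : Chart j W) (hπc : Continuous π) (hπo : IsOpenMap π) (ν : Measure 𝕋)
    [ν.IsHaarMeasure] [ν.IsMulRightInvariant] : ∃ z : Siz 𝕋 ν, z.d = Module.finrank ℝ W ∧ z.ρ = rqj (j := j) π := by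
  refine siz_of_net (rqj (j := j) π) (continuous_rqj hπs hπf hj hπc hπo) (fun x => ?_) ?_ (fun x y => ?_) (fun x hx => ?_)
    (fun U hU => ?_) (isCompact_rqj hπs hπf hj hπc) _ (exists_netQ hπs hπf hπo hch) ν
  · obtain ⟨g, -, g2, -⟩ := rqj_min (j := j) hπs hπf x
    rw [← g2]
    exact rj_nonneg j g
  · obtain ⟨g, -, g2, -⟩ := rqj_min (j := j) hπs hπf (1 : 𝕋)
    have h1 := rqj_le (j := j) hπs hπf 1
    rw [map_one, rj_one] at h1
    refine le_antisymm h1 ?_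
    rw [← g2]
    exact rj_nonneg j g
  · obtain ⟨g, g1, g2, -⟩ := rqj_min (j := j) hπs hπf x
    obtain ⟨h, h1, h2, -⟩ := rqj_min (j := j) hπs hπf y
    have h3 := rqj_le (j := j) hπs hπf (g * h)
    rw [map_mul, g1, h1] at h3
    rw [← g2, ← h2]
    exact h3.trans (rj_mul j g h)
  · obtain ⟨g, g1, g2, -⟩ := rqj_min (j := j) hπs hπf x
    rw [← g2] at hx ⊢
    have h3 := rqj_le (j := j) hπs hπf g⁻¹
    rw [map_inv, g1] at h3
    exact h3.trans (rj_inv j g hx)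
  · have h1 : π ⁻¹' U ∈ 𝓝 (1 : 𝕊) := hπc.continuousAt.preimage_mem_nhds (by rwa [map_one])
    obtain ⟨r, hr, h2⟩ := rj_basis hj _ h1
    refine ⟨r, hr, fun x hx => ?_⟩
    obtain ⟨g, g1, g2, -⟩ := rqj_min (j := j) hπs hπf x
    rw [← g1]
    exact h2 g (by rw [g2]; exact hx)

end Quot

end Pool.Agent.Helper84.OB
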