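import Pool.Agent.Helper84.OB.SizG

/-!
# Project OB (MP_0f6f3f_an): the orthogonal group of a form

`J` a symmetric matrix with `J² = 1`. `OJ J`: the matrices `g` with `gᵀ J g = J`; `soJ J`: its Lie algebra. The elements of `OJ J` near `1` are the `exp X`, `X` small in `soJ J`; `dim (soJ J) ≤ n (n - 1) / 2`.
-/

set_option autoImplicit false
set_option linter.unusedSectionVars false

open Filter Topology MeasureTheory Matrix

namespace Pool.Agent.Helper84.OB

open Pool.Agent.Helper96.SA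

variable {n : ℕ}

/-- The orthogonal group of `J`. -/
def OJ (J : Mat n) : Subgroup (GL (Fin n) ℝ) where
  carrier := {g | (g : Mat n)ᵀ * J * (g : Mat n) = J}
  mul_mem' {g h} hg hh := by
    have hg' : (g : Mat n)ᵀ * J * (g : Mat n) = J := hg
    have hh' : (h : Mat n)ᵀ * J * (h : Mat n) = J := hh
    show ((g * h : GL (Fin n) ℝ) : Mat n)ᵀ * J * ((g * h : GL (Fin n) ℝ) : Mat n) = J
    rw [Units.val_mul, transpose_mul]
    calc (h : Mat n)ᵀ * (g : Mat n)ᵀ * J * ((g : Mat n) * (h : Mat n))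
        = (h : Mat n)ᵀ * ((g : Mat n)ᵀ * J * (g : Mat n)) * (h : Mat n) := by noncomm_ring
      _ = J := by rw [hg', hh']
  one_mem' := by
    show ((1 : GL (Fin n) ℝ) : Mat n)ᵀ * J * ((1 : GL (Fin n) ℝ) : Mat n) = J
    rw [Units.val_one, transpose_one, one_mul, mul_one]
  inv_mem' {g} hg := by
    have hg' : (g : Mat n)ᵀ * J * (g : Mat n) = J := hg
    show ((g⁻¹ : GL (Fin n) ℝ) : Mat n)ᵀ * J * ((g⁻¹ : GL (Fin n) ℝ) : Mat n) = J
    have h1 : (g : Mat n) * ((g⁻¹ : GL (Fin n) ℝ) : Mat n) = 1 := g.mul_inv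
    have h2 : ((g⁻¹ : GL (Fin n) ℝ) : Mat n)ᵀ * (g : Mat n)ᵀ = 1 := by rw [← transpose_mul, h1, transpose_one]
    calc ((g⁻¹ : GL (Fin n) ℝ) : Mat n)ᵀ * J * ((g⁻¹ : GL (Fin n) ℝ) : Mat n)
        = ((g⁻¹ : GL (Fin n) ℝ) : Mat n)ᵀ * ((g : Mat n)ᵀ * J * (g : Mat n)) * ((g⁻¹ : GL (Fin n) ℝ) : Mat n) := by rw [hg']
      _ = (((g⁻¹ : GL (Fin n) ℝ) : Mat n)ᵀ * (g : Mat n)ᵀ) * J * ((g : Mat n) * ((g⁻¹ : GL (Fin n) ℝ) : Mat n)) := by noncomm_ring
      _ = J := by rw [h1, h2, one_mul, mul_one]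

theorem mem_OJ {J : Mat n} {g : GL (Fin n) ℝ} : g ∈ OJ J ↔ (g : Mat n)ᵀ * J * (g : Mat n) = J := Iff.rfl

theorem isClosed_OJ (J : Mat n) : IsClosed (OJ J : Set (GL (Fin n) ℝ)) := by
  have h1 : Continuous fun g : GL (Fin n) ℝ => (g : Mat n)ᵀ * J * (g : Mat n) :=
    (Units.continuous_val.matrix_transpose.mul continuous_const).mul Units.continuous_val
  exact isClosed_eq h1 continuous_const

/-- The Lie algebra of `OJ J`. -/
def soJ (J : Mat n) : Submodule ℝ (Mat n) where
  carrier := {X | Xᵀ * J + J * X = 0}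
  add_mem' {X Y} hX hY := by
    have hX' : Xᵀ * J + J * X = 0 := hX
    have hY' : Yᵀ * J + J * Y = 0 := hY
    show (X + Y)ᵀ * J + J * (X + Y) = 0
    rw [transpose_add, add_mul, mul_add, add_add_add_comm, hX', hY', add_zero]
  zero_mem' := by
    show (0 : Mat n)ᵀ * J + J * 0 = 0
    rw [transpose_zero, zero_mul, mul_zero, add_zero]
  smul_mem' c X hX := by
    have hX' : Xᵀ * J + J * X = 0 := hX
    show (c • X)ᵀ * J + J * (c • X) = 0
    rw [transpose_smul, smul_mul_assoc, mul_smul_comm, ← smul_add, hX', smul_zero]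

theorem mem_soJ {J X : Mat n} : X ∈ soJ J ↔ Xᵀ * J + J * X = 0 := Iff.rfl

/-- `dim (soJ J) ≤ n (n - 1) / 2`. -/
theorem finrank_soJ {J : Mat n} (hs : Jᵀ = J) (h1 : J * J = 1) : Module.finrank ℝ (soJ J) ≤ n * (n - 1) / 2 := by
  classical
  let T : soJ J →ₗ[ℝ] ({p : Fin n × Fin n // p.1 < p.2} → ℝ) :=
    { toFun := fun X p => (J * (X : Mat n)) p.1.1 p.1.2
      map_add' := fun X Y => by
        funext p
        show (J * ((X : Mat n) + (Y : Mat n))) p.1.1 p.1.2 = (J * (X : Mat n)) p.1.1 p.1.2 + (J * (Y : Mat n)) p.1.1 p.1.2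
        rw [mul_add, Matrix.add_apply]
      map_smul' := fun c X => by
        funext p
        show (J * (c • (X : Mat n))) p.1.1 p.1.2 = c * (J * (X : Mat n)) p.1.1 p.1.2
        rw [mul_smul_comm, Matrix.smul_apply, smul_eq_mul] }
  have hT : Function.Injective T := by
    rw [← LinearMap.ker_eq_bot, LinearMap.ker_eq_bot']
    intro X hX
    have hsk : ∀ i k, (J * (X : Mat n)) i k = -(J * (X : Mat n)) k i := by
      intro i k
      have h2 : (X : Mat n)ᵀ * J + J * (X : Mat n) = 0 := X.2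
      have h3 : (J * (X : Mat n))ᵀ = (X : Mat n)ᵀ * J := by rw [transpose_mul, hs]
      rw [← h3] at h2
      have h4 := congrFun (congrFun h2 k) i
      rw [Matrix.add_apply, transpose_apply, Matrix.zero_apply] at h4
      linarith
    have hz : J * (X : Mat n) = 0 := by
      ext i k
      rw [Matrix.zero_apply]
      rcases lt_trichotomy i k with h | h | h
      · exact congrFun hX ⟨(i, k), h⟩
      · subst h
        have := hsk i i
        linarith
      · rw [hsk, congrFun hX ⟨(k, i), h⟩ |> fun e => (show (J * (X : Mat n)) k i = 0 from e), neg_zero]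
    have h5 : (X : Mat n) = 0 := by
      calc (X : Mat n) = (J * J) * (X : Mat n) := by rw [h1, one_mul]
        _ = J * (J * (X : Mat n)) := by rw [mul_assoc]
        _ = 0 := by rw [hz, mul_zero]
    exact Subtype.ext h5
  have h2 := LinearMap.finrank_le_finrank_of_injective hT
  rw [Module.finrank_fintype_fun_eq_card] at h2
  refine h2.trans (le_of_eq ?_)
  have h3 : Fintype.card {p : Fin n × Fin n // p.1 < p.2} = n.choose 2 := by
    rw [Fintype.card_subtype]
    have := Finset.card_powersetCard 2 (Finset.univ : Finset (Fin n))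
    rw [Finset.card_univ, Fintype.card_fin] at this
    rw [← this]
    refine Finset.card_bij (fun p _ => {p.1, p.2}) ?_ ?_ ?_
    · intro p hp
      have hp' := (Finset.mem_filter.1 hp).2
      rw [Finset.mem_powersetCard]
      exact ⟨Finset.subset_univ _, Finset.card_pair hp'.ne⟩
    · intro p hp q hq hpq
      have hp' := (Finset.mem_filter.1 hp).2
      have hq' := (Finset.mem_filter.1 hq).2
      have a1 : p.1 ∈ ({q.1, q.2} : Finset (Fin n)) := by rw [← hpq]; simp
      have a2 : p.2 ∈ ({q.1, q.2} : Finset (Fin n)) := by rw [← hpq]; simp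
      rw [Finset.mem_insert, Finset.mem_singleton] at a1 a2
      rcases a1 with a1 | a1 <;> rcases a2 with a2 | a2
      · rw [a1, a2] at hp'
        exact absurd hp' (lt_irrefl _)
      · exact Prod.ext a1 a2
      · rw [a1, a2] at hp'
        exact absurd (hp'.trans hq') (lt_irrefl _)
      · rw [a1, a2] at hp'
        exact absurd hp' (lt_irrefl _)
    · intro s hs
      obtain ⟨-, hs2⟩ := Finset.mem_powersetCard.1 hs
      obtain ⟨a, b, hab, rfl⟩ := Finset.card_eq_two.1 hs2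
      rcases lt_or_gt_of_ne hab with h | h
      · exact ⟨(a, b), Finset.mem_filter.2 ⟨Finset.mem_univ _, h⟩, rfl⟩
      · exact ⟨(b, a), Finset.mem_filter.2 ⟨Finset.mem_univ _, h⟩, Finset.pair_comm _ _⟩
  rw [h3, Nat.choose_two_right]

section Ch

open scoped Matrix.Norms.Operator

/-- A continuous logarithm. -/
theorem exists_log (n : ℕ) : ∃ L : Mat n → Mat n, L 1 = 0 ∧ ContinuousAt L 1 ∧ (∀ᶠ X in 𝓝 (0 : Mat n), L (NormedSpace.exp X) = X) ∧
    ∀ᶠ A in 𝓝 (1 : Mat n), NormedSpace.exp (L A) = A := by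
  have hc : CompleteSpace (Mat n) := inferInstance
  have h1 : HasStrictFDerivAt (NormedSpace.exp : Mat n → Mat n) ((ContinuousLinearEquiv.refl ℝ (Mat n) : Mat n ≃L[ℝ] Mat n) : Mat n →L[ℝ] Mat n) 0 :=
    hasStrictFDerivAt_exp_zero
  have e0 : NormedSpace.exp (0 : Mat n) = 1 := NormedSpace.exp_zero
  refine ⟨h1.localInverse _ _ _, ?_, ?_, ?_, ?_⟩
  · have := h1.localInverse_apply_image
    rwa [e0] at this
  · have := h1.localInverse_continuousAt
    rwa [e0] at this
  · exact h1.eventually_left_inverse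
  · have := h1.eventually_right_inverse
    rwa [e0] at this

theorem chart_OJ {J : Mat n} (h1 : J * J = 1) : Chart (OJ J).subtype (soJ J) := by
  intro r hr
  obtain ⟨L, hL1, hLc, hLl, hLr⟩ := exists_log n
  have hv : Tendsto (fun g : OJ J => ((g : GL (Fin n) ℝ) : Mat n)) (𝓝 1) (𝓝 1) := by
    have := (Units.continuous_val.comp (continuous_subtype_val (p := fun g => g ∈ OJ J))).tendsto (1 : OJ J)
    exact this
  have hLt : Tendsto (fun g : OJ J => L ((g : GL (Fin n) ℝ) : Mat n)) (𝓝 1) (𝓝 0) := by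
    have h2 : Tendsto L (𝓝 1) (𝓝 0) := by
      have := hLc.tendsto
      rwa [hL1] at this
    exact h2.comp hv
  have hn : Tendsto (fun X : Mat n => -X) (𝓝 0) (𝓝 0) := by
    have := (continuous_neg (G := Mat n)).tendsto 0
    rwa [neg_zero] at this
  have hJ : Tendsto (fun X : Mat n => J * Xᵀ * J) (𝓝 0) (𝓝 0) := by
    have h3 : Continuous fun X : Mat n => J * Xᵀ * J := (continuous_const.mul continuous_id.matrix_transpose).mul continuous_const
    have := h3.tendsto 0
    rwa [transpose_zero, mul_zero, zero_mul] at this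
  have h2 : ∀ᶠ g : OJ J in 𝓝 1, ‖L ((g : GL (Fin n) ℝ) : Mat n)‖ < r := by
    have := hLt.norm
    rw [norm_zero] at this
    exact this.eventually (gt_mem_nhds hr)
  filter_upwards [h2, hv.eventually hLr, (hn.comp hLt).eventually hLl, (hJ.comp hLt).eventually hLl] with g k1 k2 k3 k4
  set X := L ((g : GL (Fin n) ℝ) : Mat n) with hX
  refine ⟨X, ?_, k1.le, k2.symm⟩
  have k3' : L (NormedSpace.exp (-X)) = -X := k3
  have k4' : L (NormedSpace.exp (J * Xᵀ * J)) = J * Xᵀ * J := k4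
  have e1 : NormedSpace.exp (J * Xᵀ * J) = J * ((g : GL (Fin n) ℝ) : Mat n)ᵀ * J := by
    have := Matrix.exp_units_conj (⟨J, J, h1, h1⟩ : (Mat n)ˣ) Xᵀ
    have h3 : NormedSpace.exp (J * Xᵀ * J) = J * NormedSpace.exp Xᵀ * J := this
    rw [h3, Matrix.exp_transpose, k2]
  have e2 : J * ((g : GL (Fin n) ℝ) : Mat n)ᵀ * J * ((g : GL (Fin n) ℝ) : Mat n) = 1 := by
    have h3 : ((g : GL (Fin n) ℝ) : Mat n)ᵀ * J * ((g : GL (Fin n) ℝ) : Mat n) = J := g.2
    rw [mul_assoc, mul_assoc, ← mul_assoc (((g : GL (Fin n) ℝ) : Mat n)ᵀ), h3, h1]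
  have e3 : NormedSpace.exp (-X) * ((g : GL (Fin n) ℝ) : Mat n) = 1 := by
    rw [← k2, ← Matrix.exp_add_of_commute _ _ (Commute.neg_left (Commute.refl X)), neg_add_cancel, NormedSpace.exp_zero]
  have e4 : J * ((g : GL (Fin n) ℝ) : Mat n)ᵀ * J = NormedSpace.exp (-X) := by
    have h3 : ((g : GL (Fin n) ℝ) : Mat n) * NormedSpace.exp (-X) = 1 := mul_eq_one_comm.1 e3
    calc J * ((g : GL (Fin n) ℝ) : Mat n)ᵀ * J = J * ((g : GL (Fin n) ℝ) : Mat n)ᵀ * J * (((g : GL (Fin n) ℝ) : Mat n) * NormedSpace.exp (-X)) := by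
          rw [h3, mul_one]
      _ = (J * ((g : GL (Fin n) ℝ) : Mat n)ᵀ * J * ((g : GL (Fin n) ℝ) : Mat n)) * NormedSpace.exp (-X) := (mul_assoc _ _ _).symm
      _ = _ := by rw [e2, one_mul]
  have e5 : J * Xᵀ * J = -X := by rw [← k4', e1, e4, k3']
  rw [mem_soJ]
  have e6 : Xᵀ * J = J * (J * Xᵀ * J) := by
    rw [← mul_assoc, ← mul_assoc, h1, one_mul]
  rw [e6, e5, mul_neg, neg_add_cancel]

end Ch

end Pool.Agent.Helper84.OB
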